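import Pool.Agent.TH525.AG.AngMean
import Pool.Agent.TH525.PU.RigidMain

/-! # Cubic rigid systems: the mean number of closed orbits -/

open Set MeasureTheory Topology Filter
open scoped ENNReal NNReal

namespace Pool.Agent.TH275.QM.Cub

open Pool.Agent.TH525.PU Pool.Agent.TH525.AG

/-- `a + b x + c y + d x² + e x y + f y²` -/
def FF (a b c d e f : ℝ) (p : ℝ × ℝ) : ℝ :=
  a + b * p.1 + c * p.2 + d * p.1 ^ 2 + e * (p.1 * p.2) + f * p.2 ^ 2

/-- the same as a polynomial -/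
noncomputable def HH (a b c d e f : ℝ) : MvPolynomial (Fin 2) ℝ :=
  MvPolynomial.C a + MvPolynomial.C b * MvPolynomial.X 0 + MvPolynomial.C c * MvPolynomial.X 1 +
    MvPolynomial.C d * MvPolynomial.X 0 ^ 2 +
    MvPolynomial.C e * (MvPolynomial.X 0 * MvPolynomial.X 1) + MvPolynomial.C f * MvPolynomial.X 1 ^ 2

lemma HH_eval (a b c d e f x y : ℝ) :
    MvPolynomial.eval ![x, y] (HH a b c d e f) = FF a b c d e f (x, y) := by
  simp [HH, FF]

/-- closed orbits of `x' = -y + x F`, `y' = x + y F` contained in `A` -/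
def orb (F : ℝ × ℝ → ℝ) (A : Set (ℝ × ℝ)) : Set (Set (ℝ × ℝ)) :=
  {C | (∃ γ : ℝ → ℝ × ℝ, ∃ T : ℝ, 0 < T ∧
    (∀ t : ℝ, HasDerivAt γ (-(γ t).2 + (γ t).1 * F (γ t), (γ t).1 + (γ t).2 * F (γ t)) t) ∧
    (∀ t : ℝ, γ (t + T) = γ t) ∧ (∃ s t : ℝ, γ s ≠ γ t) ∧ C = range γ) ∧ C ⊆ A}

/-- the polar form -/
lemma polar {a b c d e f : ℝ} {A : Set (ℝ × ℝ)} {C : Set (ℝ × ℝ)}
    (hC : C ∈ orb (FF a b c d e f) A) :
    ∃ ρ : ℝ → ℝ, ∃ V, IsClosedSol (2 * Real.pi) V (lp (HH a b c d e f)) 0 ρ ∧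
      C = curve ρ '' Icc 0 (2 * Real.pi) := by
  obtain ⟨⟨γ, S, hS, hγ, hper, hnc, rfl⟩, hsub⟩ := hC
  have hcont : Continuous γ := continuous_iff_continuousAt.2 fun t => (hγ t).continuousAt
  -- a disc which contains the orbit
  have hrange : range γ = γ '' Icc 0 S := by
    apply Subset.antisymm
    · rintro _ ⟨t, rfl⟩
      have hp : Function.Periodic γ S := hper
      obtain ⟨y, hy, h⟩ := hp.exists_mem_Ico₀ hS t
      exact ⟨y, ⟨hy.1, hy.2.le⟩, h.symm⟩
    · exact image_subset_range _ _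
  have hcomp : IsCompact (range γ) := by
    rw [hrange]; exact isCompact_Icc.image hcont
  obtain ⟨M, hM⟩ := hcomp.exists_bound_of_continuousOn
    (f := fun p : ℝ × ℝ => p.1 ^ 2 + p.2 ^ 2) (by fun_prop)
  set R : ℝ := M + 1 with hR
  have hM0 : 0 ≤ M := (norm_nonneg _).trans (hM (γ 0) ⟨0, rfl⟩)
  have hdisc : range γ ⊆ disc R := by
    intro p hp
    have h1 := hM p hp
    rw [Real.norm_eq_abs, abs_of_nonneg (by positivity)] at h1
    show p.1 ^ 2 + p.2 ^ 2 ≤ R ^ 2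
    nlinarith
  obtain ⟨ρ, h1, h2⟩ := orbit_polar (H := HH a b c d e f) (s := 0) (γ := γ) (fun t => by
    have := hγ t
    rw [add_zero, HH_eval]
    exact this) hS hper hnc (R := R) (by linarith) hdisc
  exact ⟨ρ, _, h1, h2⟩

variable {a b c d e f : ℝ}

/-- the coefficient of `r` -/
noncomputable def Ac (b c t : ℝ) : ℝ := b * Real.cos t + c * Real.sin t

/-- the coefficient of `r ^ 2` -/
noncomputable def Bc (d e f t : ℝ) : ℝ :=
  d * Real.cos t ^ 2 + e * (Real.cos t * Real.sin t) + f * Real.sin t ^ 2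

lemma lp_val (a b c d e f t x : ℝ) : lp (HH a b c d e f) t x =
    a + Ac b c t * Real.exp x + Bc d e f t * Real.exp x ^ 2 := by
  unfold Pool.Agent.TH525.PU.lp pol
  rw [HH_eval]
  unfold FF Ac Bc
  ring

/-- the right hand side in `u = -1 / (2 r ^ 2)` -/
noncomputable def fc (a b c d e f t u : ℝ) : ℝ :=
  a * (-2 * u) + Ac b c t * Real.sqrt (-2 * u) + Bc d e f t

lemma fc_w (a b c d e f t : ℝ) {u : ℝ} (hu : u < 0) : fc a b c d e f t u =
    a * Real.sqrt (-2 * u) ^ 2 + Ac b c t * Real.sqrt (-2 * u) + Bc d e f t := by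
  unfold fc
  rw [Real.sq_sqrt (by linarith)]

lemma alg {w : ℝ} (hw : w ≠ 0) (a A B : ℝ) :
    a * w ^ 2 + A * w + B = (a + A * w⁻¹ + B * w⁻¹ ^ 2) / w⁻¹ ^ 2 := by
  field_simp

/-- the point of the plane -/
noncomputable def ptc (t u : ℝ) : ℝ × ℝ :=
  ((Real.sqrt (-2 * u))⁻¹ * Real.cos t, (Real.sqrt (-2 * u))⁻¹ * Real.sin t)

/-- the region -/
def Vc (A : Set (ℝ × ℝ)) (t : ℝ) : Set ℝ := {u | u < 0 ∧ ptc t u ∈ A}

lemma sqrt_exp (x : ℝ) : Real.sqrt (-2 * (-(Real.exp (-(2 * x)) / 2))) = Real.exp (-x) := by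
  rw [show -2 * (-(Real.exp (-(2 * x)) / 2)) = Real.exp (-x) ^ 2 by
    rw [← Real.exp_nat_mul]; push_cast; ring_nf]
  exact Real.sqrt_sq (Real.exp_pos _).le

lemma toClosed {s : ℝ} {ρ : ℝ → ℝ} {V : Set ℝ} {A : Set (ℝ × ℝ)}
    (h : IsClosedSol (2 * Real.pi) V (lp (HH a b c (d + s) e (f + s))) 0 ρ)
    (hA : curve ρ '' Icc 0 (2 * Real.pi) ⊆ A) :
    IsClosedIn (2 * Real.pi) (Vc A) (fc a b c d e f) s (fun t => -(Real.exp (-(2 * ρ t)) / 2)) := by
  refine ⟨fun t ht => ?_, by simp only [h.closed], fun t ht => ⟨?_, ?_⟩⟩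
  · have h1 := h.deriv t ht
    rw [lp_val, add_zero] at h1
    have h2 := (((h1.const_mul 2).neg.exp).div_const 2).neg
    refine h2.congr_deriv ?_
    unfold fc
    rw [sqrt_exp]
    have e1 : Real.exp (-(2 * ρ t)) = Real.exp (-ρ t) ^ 2 := by
      rw [← Real.exp_nat_mul]; push_cast; ring_nf
    have e2 : Real.exp (-ρ t) * Real.exp (ρ t) = 1 := by
      rw [← Real.exp_add]; simp
    have e3 := Real.sin_sq_add_cos_sq t
    simp only [Pi.neg_apply]
    rw [e1]
    unfold Bc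
    set E := Real.exp (-ρ t)
    set G := Real.exp (ρ t)
    have e4 : E ^ 2 * G ^ 2 = 1 := by rw [← mul_pow, e2, one_pow]
    have e5 : E ^ 2 * G = E := by rw [pow_two, mul_assoc, e2, mul_one]
    linear_combination (Ac b c t) * e5 + ((d + s) * Real.cos t ^ 2 +
      e * (Real.cos t * Real.sin t) + (f + s) * Real.sin t ^ 2) * e4 + s * e3
  · have := Real.exp_pos (-(2 * ρ t))
    linarith
  · apply hA
    refine ⟨t, ht, ?_⟩
    unfold ptc curve
    rw [sqrt_exp, Real.exp_neg, inv_inv]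

/-- the orbit of a closed solution -/
noncomputable def img (w : Icc 0 (2 * Real.pi) → ℝ) : Set (ℝ × ℝ) :=
  range fun t : Icc 0 (2 * Real.pi) => ptc t (w t)

lemma orb_sub (s : ℝ) (A : Set (ℝ × ℝ)) : orb (FF a b c (d + s) e (f + s)) A ⊆
    img '' closedIn (2 * Real.pi) (Vc A) (fc a b c d e f) s := by
  intro C hC
  obtain ⟨ρ, V, h1, rfl⟩ := polar hC
  refine ⟨_, ⟨_, toClosed h1 hC.2, rfl⟩, ?_⟩
  unfold img
  ext p
  constructor
  · rintro ⟨t, rfl⟩
    refine ⟨t, t.2, ?_⟩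
    simp only [domRestrict_apply]
    unfold ptc curve
    rw [sqrt_exp, Real.exp_neg, inv_inv]
  · rintro ⟨t, ht, rfl⟩
    refine ⟨⟨t, ht⟩, ?_⟩
    simp only [domRestrict_apply]
    unfold ptc curve
    rw [sqrt_exp, Real.exp_neg, inv_inv]

lemma fc_cont : Continuous (Function.uncurry (fc a b c d e f)) := by
  unfold Function.uncurry fc Ac Bc
  fun_prop

lemma loclip (A : Set (ℝ × ℝ)) : LocLip (2 * Real.pi) (Vc A) (fc a b c d e f) := by
  intro φ ψ hφ hψ hV
  have hmc : ContinuousOn (fun t => max (φ t) (ψ t)) (Icc 0 (2 * Real.pi)) := hφ.sup hψ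
  obtain ⟨t₀, ht₀, hmax⟩ := isCompact_Icc.exists_isMaxOn
    (nonempty_Icc.2 Real.two_pi_pos.le) hmc
  set δ : ℝ := -max (φ t₀) (ψ t₀) with hδ
  have hδ0 : 0 < δ := by
    have h1 := (hV t₀ ht₀).1.1
    have h2 := (hV t₀ ht₀).2.1
    have : max (φ t₀) (ψ t₀) < 0 := max_lt h1 h2
    linarith
  refine ⟨Real.toNNReal (2 * |a| + (|b| + |c|) * (1 / Real.sqrt (2 * δ))), fun t ht => ?_⟩
  have hle : ∀ x ∈ uIcc (φ t) (ψ t), x ≤ -δ := by
    intro x hx
    have h1 : x ≤ max (φ t) (ψ t) := hx.2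
    have h2 : max (φ t) (ψ t) ≤ max (φ t₀) (ψ t₀) := hmax ht
    linarith
  apply LipschitzOnWith.of_dist_le_mul
  intro x hx y hy
  have hx1 := hle x hx
  have hy1 := hle y hy
  have hs : 0 < Real.sqrt (2 * δ) := Real.sqrt_pos.2 (by linarith)
  rw [Real.coe_toNNReal _ (by positivity), Real.dist_eq, Real.dist_eq]
  have hsx : Real.sqrt (2 * δ) ≤ Real.sqrt (-2 * x) := Real.sqrt_le_sqrt (by linarith)
  have hsy : Real.sqrt (2 * δ) ≤ Real.sqrt (-2 * y) := Real.sqrt_le_sqrt (by linarith)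
  have hx2 : Real.sqrt (-2 * x) ^ 2 = -2 * x := Real.sq_sqrt (by linarith)
  have hy2 : Real.sqrt (-2 * y) ^ 2 = -2 * y := Real.sq_sqrt (by linarith)
  have hsq : |Real.sqrt (-2 * x) - Real.sqrt (-2 * y)| ≤ 1 / Real.sqrt (2 * δ) * |x - y| := by
    rw [one_div, ← div_eq_inv_mul, le_div_iff₀ hs]
    have h1 : |Real.sqrt (-2 * x) - Real.sqrt (-2 * y)| *
        (Real.sqrt (-2 * x) + Real.sqrt (-2 * y)) = 2 * |x - y| := by
      have h2 : (Real.sqrt (-2 * x) - Real.sqrt (-2 * y)) *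
          (Real.sqrt (-2 * x) + Real.sqrt (-2 * y)) = -2 * (x - y) := by
        have : (Real.sqrt (-2 * x) - Real.sqrt (-2 * y)) *
          (Real.sqrt (-2 * x) + Real.sqrt (-2 * y)) =
          Real.sqrt (-2 * x) ^ 2 - Real.sqrt (-2 * y) ^ 2 := by ring
        rw [this, hx2, hy2]; ring
      have h3 : 0 < Real.sqrt (-2 * x) + Real.sqrt (-2 * y) := by linarith
      have h4 : |Real.sqrt (-2 * x) - Real.sqrt (-2 * y)| *
          (Real.sqrt (-2 * x) + Real.sqrt (-2 * y)) =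
          |(Real.sqrt (-2 * x) - Real.sqrt (-2 * y)) *
          (Real.sqrt (-2 * x) + Real.sqrt (-2 * y))| := by rw [abs_mul, abs_of_pos h3]
      rw [h4, h2, abs_mul]
      norm_num
    have h4 := abs_nonneg (Real.sqrt (-2 * x) - Real.sqrt (-2 * y))
    nlinarith
  have hAc : |Ac b c t| ≤ |b| + |c| := by
    unfold Ac
    refine (abs_add_le _ _).trans ?_
    rw [abs_mul, abs_mul]
    have h1 := Real.abs_cos_le_one t
    have h2 := Real.abs_sin_le_one t
    nlinarith [abs_nonneg b, abs_nonneg c]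
  have e1 : fc a b c d e f t x - fc a b c d e f t y = -2 * a * (x - y) +
      Ac b c t * (Real.sqrt (-2 * x) - Real.sqrt (-2 * y)) := by
    unfold fc; ring
  rw [e1]
  refine (abs_add_le _ _).trans ?_
  rw [abs_mul, abs_mul, abs_mul, abs_neg, abs_two]
  have h5 := mul_le_mul hAc hsq (abs_nonneg _) (by positivity)
  calc 2 * |a| * |x - y| + |Ac b c t| * |Real.sqrt (-2 * x) - Real.sqrt (-2 * y)|
      ≤ 2 * |a| * |x - y| + (|b| + |c|) * (1 / Real.sqrt (2 * δ) * |x - y|) := by linarith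
    _ = _ := by ring

/-- numerator -/
noncomputable def Pc (a b c d e f t : ℝ) : Polynomial ℝ :=
  Polynomial.C a + Polynomial.C (Ac b c t) * Polynomial.X +
    Polynomial.C (Bc d e f t) * Polynomial.X ^ 2

lemma Pc_eval (a b c d e f t r : ℝ) :
    (Pc a b c d e f t).eval r = a + Ac b c t * r + Bc d e f t * r ^ 2 := by
  simp [Pc]

lemma Pc_deg (a b c d e f t : ℝ) : (Pc a b c d e f t).natDegree ≤ 2 := by
  unfold Pc
  compute_degree

lemma FF_polar (a b c d e f t r : ℝ) : FF a b c d e f (r * Real.cos t, r * Real.sin t) =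
    a + Ac b c t * r + Bc d e f t * r ^ 2 := by
  unfold FF Ac Bc
  ring

lemma norm_polar (t r : ℝ) : (r * Real.cos t) ^ 2 + (r * Real.sin t) ^ 2 = r ^ 2 := by
  have := Real.sin_sq_add_cos_sq t
  linear_combination r ^ 2 * this

lemma var_pair {A : Set (ℝ × ℝ)} (hA : ∀ t, (ray A t).OrdConnected) {m M : ℝ}
    (hm : ∀ p ∈ A, 0 < p.1 ^ 2 + p.2 ^ 2 → m ≤ FF a b c d e f p / (p.1 ^ 2 + p.2 ^ 2) ∧
      FF a b c d e f p / (p.1 ^ 2 + p.2 ^ 2) ≤ M) (t : ℝ) :
    eVariationOn (fc a b c d e f t) (Vc A t) +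
      eVariationOn (fc a b c d e f (t + Real.pi)) (Vc A (t + Real.pi)) ≤
      2 * ENNReal.ofReal (M - m) := by
  set R : ℝ → ℝ := fun r => (Pc a b c d e f t).eval r / (Polynomial.X ^ 2 : Polynomial ℝ).eval r
    with hR
  set J : Set ℝ := {r | r < 0 ∧ (r * Real.cos t, r * Real.sin t) ∈ A} with hJ
  have hJo : J.OrdConnected := by
    have h1 : J = Neg.neg ⁻¹' (ray A (t + Real.pi)) := by
      ext r
      simp only [hJ, ray, mem_ofPred_eq, mem_preimage, Real.cos_add_pi, Real.sin_add_pi,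
        neg_mul_neg, Left.neg_pos_iff]
    rw [h1]
    exact (hA _).preimage_anti (fun _ _ h => neg_le_neg h)
  have hval : ∀ r : ℝ, R r = FF a b c d e f (r * Real.cos t, r * Real.sin t) /
      ((r * Real.cos t) ^ 2 + (r * Real.sin t) ^ 2) := by
    intro r
    simp only [hR]
    rw [Pc_eval, FF_polar, norm_polar, Polynomial.eval_pow, Polynomial.eval_X]
  have hw : ∀ u : ℝ, u < 0 → 0 < Real.sqrt (-2 * u) := fun u hu => Real.sqrt_pos.2 (by linarith)
  have hw2 : ∀ u : ℝ, u < 0 → Real.sqrt (-2 * u) ^ 2 = -2 * u := fun u hu =>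
    Real.sq_sqrt (by linarith)
  have e1 : eVariationOn (fc a b c d e f t) (Vc A t) ≤ eVariationOn R (ray A t) := by
    have h1 : EqOn (fc a b c d e f t) (R ∘ fun u => (Real.sqrt (-2 * u))⁻¹) (Vc A t) := by
      intro u hu
      have h2 := hw u hu.1
      simp only [Function.comp_apply, hR]
      rw [Pc_eval, Polynomial.eval_pow, Polynomial.eval_X, fc_w _ _ _ _ _ _ _ hu.1]
      exact alg h2.ne' _ _ _
    rw [eVariationOn.congr h1]
    refine eVariationOn.comp_le_of_monotoneOn R _ ?_ ?_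
    · intro u hu v hv huv
      exact inv_anti₀ (hw v hv.1) (Real.sqrt_le_sqrt (by linarith))
    · intro u hu
      exact ⟨inv_pos.2 (hw u hu.1), hu.2⟩
  have e2 : eVariationOn (fc a b c d e f (t + Real.pi)) (Vc A (t + Real.pi)) ≤
      eVariationOn R J := by
    have h1 : EqOn (fc a b c d e f (t + Real.pi)) (R ∘ fun u => -(Real.sqrt (-2 * u))⁻¹)
        (Vc A (t + Real.pi)) := by
      intro u hu
      have h2 := hw u hu.1
      simp only [Function.comp_apply, hR]
      rw [Pc_eval, Polynomial.eval_pow, Polynomial.eval_X, fc_w _ _ _ _ _ _ _ hu.1]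
      have h4 : Ac b c (t + Real.pi) = -Ac b c t := by
        unfold Ac; rw [Real.cos_add_pi, Real.sin_add_pi]; ring
      have h5 : Bc d e f (t + Real.pi) = Bc d e f t := by
        unfold Bc; rw [Real.cos_add_pi, Real.sin_add_pi]; ring
      rw [h4, h5]
      have h6 := alg h2.ne' a (-Ac b c t) (Bc d e f t)
      rw [h6]
      ring
    rw [eVariationOn.congr h1]
    refine eVariationOn.comp_le_of_antitoneOn R _ ?_ ?_
    · intro u hu v hv huv
      exact neg_le_neg (inv_anti₀ (hw v hv.1) (Real.sqrt_le_sqrt (by linarith)))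
    · intro u hu
      refine ⟨neg_lt_zero.2 (inv_pos.2 (hw u hu.1)), ?_⟩
      have h2 := hu.2
      unfold ptc at h2
      rw [Real.cos_add_pi, Real.sin_add_pi] at h2
      convert h2 using 2 <;> ring
  refine (add_le_add e1 e2).trans ?_
  have h2 : (2 : ℝ≥0∞) = ((2 : ℕ) : ℝ≥0∞) := by norm_num
  rw [h2]
  refine var_rat_roots (Pc_deg a b c d e f t) (by compute_degree) (hA t) hJo ?_ ?_ ?_ ?_ ?_
  · rw [Set.disjoint_left]
    intro r hr hr'
    exact absurd hr.1 (not_lt.2 hr'.1.le)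
  · intro r hr
    rw [Polynomial.eval_pow, Polynomial.eval_X]
    exact pow_ne_zero _ hr.1.ne'
  · intro r hr
    rw [Polynomial.eval_pow, Polynomial.eval_X]
    exact pow_ne_zero _ hr.1.ne
  · intro r hr
    have h3 := hval r
    simp only [hR] at h3
    rw [h3]
    refine hm _ hr.2 ?_
    rw [norm_polar]
    have := hr.1
    positivity
  · intro r hr
    have h3 := hval r
    simp only [hR] at h3
    rw [h3]
    refine hm _ hr.2 ?_
    rw [norm_polar]
    have := hr.1.ne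
    positivity

theorem main {A : Set (ℝ × ℝ)} (hA : ∀ t, (ray A t).OrdConnected) {m M : ℝ}
    (hm : ∀ p ∈ A, 0 < p.1 ^ 2 + p.2 ^ 2 → m ≤ FF a b c d e f p / (p.1 ^ 2 + p.2 ^ 2) ∧
      FF a b c d e f p / (p.1 ^ 2 + p.2 ^ 2) ≤ M) :
    (∀ s, (orb (FF a b c (d + s) e (f + s)) A).Nonempty → s ∈ Icc (-M) (-m)) ∧
    ∃ g : ℝ → ℝ≥0∞, Measurable g ∧
      (∀ s, ((orb (FF a b c (d + s) e (f + s)) A).encard : ℝ≥0∞) ≤ g s) ∧
      ∫⁻ s, g s ≤ ENNReal.ofReal (M - m) := by
  have hpi := Real.two_pi_pos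
  have hcont : ContinuousOn (Function.uncurry (fc a b c d e f)) (Reg (2 * Real.pi) (Vc A)) :=
    fc_cont.continuousOn
  constructor
  · rintro s ⟨C, hC⟩
    obtain ⟨w, ⟨φ, hφ, rfl⟩, -⟩ := orb_sub s A hC
    have h1 := mean_formula hpi hcont hφ
    have i0 : IntervalIntegrable (fun t => fc a b c d e f t (φ t)) volume 0 (2 * Real.pi) :=
      ((hφ.contf hcont).mono (by rw [uIcc_of_le hpi.le])).intervalIntegrable
    have hb : ∀ t ∈ Icc 0 (2 * Real.pi), m ≤ fc a b c d e f t (φ t) ∧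
        fc a b c d e f t (φ t) ≤ M := by
      intro t ht
      obtain ⟨h2, h3⟩ := hφ.mem t ht
      have h4 : 0 < Real.sqrt (-2 * φ t) := Real.sqrt_pos.2 (by linarith)
      have h5 : Real.sqrt (-2 * φ t) ^ 2 = -2 * φ t := Real.sq_sqrt (by linarith)
      have h6 := hm _ h3 (by
        unfold ptc
        rw [norm_polar]
        positivity)
      have h7 : fc a b c d e f t (φ t) = FF a b c d e f (ptc t (φ t)) /
          ((ptc t (φ t)).1 ^ 2 + (ptc t (φ t)).2 ^ 2) := by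
        unfold ptc
        rw [FF_polar, norm_polar, fc_w _ _ _ _ _ _ _ h2]
        exact alg h4.ne' _ _ _
      rw [h7]
      exact h6
    have h2 : (2 * Real.pi) * m ≤ ∫ t in (0:ℝ)..(2 * Real.pi), fc a b c d e f t (φ t) := by
      have := intervalIntegral.integral_mono_on (f := fun _ => m) hpi.le
        intervalIntegrable_const i0 (fun t ht => (hb t ht).1)
      simpa using this
    have h3 : ∫ t in (0:ℝ)..(2 * Real.pi), fc a b c d e f t (φ t) ≤ (2 * Real.pi) * M := by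
      have := intervalIntegral.integral_mono_on (g := fun _ => M) hpi.le
        i0 intervalIntegrable_const (fun t ht => (hb t ht).2)
      simpa using this
    constructor <;> nlinarith
  · obtain ⟨g, hgm, hg, hgi⟩ := mainG hpi hcont (loclip A)
    refine ⟨g, hgm, fun s => le_trans ?_ (hg s), hgi.trans ?_⟩
    · refine ENat.toENNReal_le.2 ?_
      exact (Set.encard_le_encard (orb_sub s A)).trans (Set.encard_image_le _ _)
    · have h1 := int_pair (v := fun t => eVariationOn (fc a b c d e f t) (Vc A t))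
        (B := 2 * ENNReal.ofReal (M - m)) (fun t => var_pair hA hm t)
      calc ENNReal.ofReal (1 / (2 * Real.pi)) *
            ∫⁻ t in Icc 0 (2 * Real.pi), eVariationOn (fc a b c d e f t) (Vc A t)
          ≤ ENNReal.ofReal (1 / (2 * Real.pi)) *
            (ENNReal.ofReal Real.pi * (2 * ENNReal.ofReal (M - m))) := mul_le_mul_right h1 _
        _ = ENNReal.ofReal (M - m) := by
            have h2 : (2 : ℝ≥0∞) = ENNReal.ofReal 2 := by norm_num
            rw [h2, ← mul_assoc, ← mul_assoc, ← ENNReal.ofReal_mul (by positivity),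
              ← ENNReal.ofReal_mul (by positivity)]
            have h3 : 1 / (2 * Real.pi) * Real.pi * 2 = 1 := by
              have := Real.pi_pos.ne'
              field_simp
            rw [h3, ENNReal.ofReal_one, one_mul]

lemma evar_le' {F U : ℝ → ℝ} {E : Set ℝ} {M : ℝ}
    (hF : ∀ x ∈ E, ∀ y ∈ E, x ≤ y → |F y - F x| ≤ U y - U x)
    (hM : ∀ x ∈ E, ∀ y ∈ E, U y - U x ≤ M) : eVariationOn F E ≤ ENNReal.ofReal M := by
  refine iSup_le ?_
  rintro ⟨n, u, hu, us⟩
  simp only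
  have h1 : ∀ i, edist (F (u (i + 1))) (F (u i)) ≤
      ENNReal.ofReal (U (u (i + 1)) - U (u i)) := by
    intro i
    rw [edist_dist, Real.dist_eq]
    exact ENNReal.ofReal_le_ofReal (hF _ (us i) _ (us (i + 1)) (hu (Nat.le_succ i)))
  refine (Finset.sum_le_sum fun i _ => h1 i).trans ?_
  rw [← ENNReal.ofReal_sum_of_nonneg, Finset.sum_range_sub (fun i => U (u i)) n]
  · exact ENNReal.ofReal_le_ofReal (hM _ (us 0) _ (us n))
  · intro i _
    exact (abs_nonneg _).trans (hF _ (us i) _ (us (i + 1)) (hu (Nat.le_succ i)))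

/-- all closed orbits outside a disc -/
theorem exterior (a b c d e f : ℝ) {ρ : ℝ} (hρ : 0 < ρ) :
    ∃ g : ℝ → ℝ≥0∞, Measurable g ∧
      (∀ s, ((orb (FF a b c (d + s) e (f + s))
        {p | ρ ^ 2 ≤ p.1 ^ 2 + p.2 ^ 2}).encard : ℝ≥0∞) ≤ g s) ∧
      ∫⁻ s, g s ≤ ENNReal.ofReal (|a| / ρ ^ 2 + (|b| + |c|) / ρ) := by
  set A : Set (ℝ × ℝ) := {p | ρ ^ 2 ≤ p.1 ^ 2 + p.2 ^ 2} with hA
  have hpi := Real.two_pi_pos
  have hcont : ContinuousOn (Function.uncurry (fc a b c d e f)) (Reg (2 * Real.pi) (Vc A)) :=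
    fc_cont.continuousOn
  obtain ⟨g, hgm, hg, hgi⟩ := mainG hpi hcont (loclip A)
  refine ⟨g, hgm, fun s => le_trans ?_ (hg s), hgi.trans ?_⟩
  · refine ENat.toENNReal_le.2 ?_
    exact (Set.encard_le_encard (orb_sub s A)).trans (Set.encard_image_le _ _)
  · have hAc : ∀ t, |Ac b c t| ≤ |b| + |c| := by
      intro t
      unfold Ac
      refine (abs_add_le _ _).trans ?_
      rw [abs_mul, abs_mul]
      have h1 := Real.abs_cos_le_one t
      have h2 := Real.abs_sin_le_one t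
      nlinarith [abs_nonneg b, abs_nonneg c]
    have hv : ∀ t, eVariationOn (fc a b c d e f t) (Vc A t) ≤
        ENNReal.ofReal (|a| / ρ ^ 2 + (|b| + |c|) / ρ) := by
      intro t
      apply evar_le' (U := fun u => -(|a| * Real.sqrt (-2 * u) ^ 2 +
        (|b| + |c|) * Real.sqrt (-2 * u)))
      · intro x hx y hy hxy
        rw [fc_w _ _ _ _ _ _ _ hx.1, fc_w _ _ _ _ _ _ _ hy.1]
        have h1 : Real.sqrt (-2 * y) ≤ Real.sqrt (-2 * x) := Real.sqrt_le_sqrt (by linarith)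
        have h2 := Real.sqrt_nonneg (-2 * y)
        set X := Real.sqrt (-2 * x)
        set Y := Real.sqrt (-2 * y)
        have h3 : a * Y ^ 2 + Ac b c t * Y + Bc d e f t - (a * X ^ 2 + Ac b c t * X + Bc d e f t) =
            -(a * (X ^ 2 - Y ^ 2)) + -(Ac b c t * (X - Y)) := by ring
        rw [h3]
        refine (abs_add_le _ _).trans ?_
        rw [abs_neg, abs_neg, abs_mul, abs_mul, abs_of_nonneg (by nlinarith : 0 ≤ X ^ 2 - Y ^ 2),
          abs_of_nonneg (by linarith : 0 ≤ X - Y)]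
        have h4 := mul_le_mul_of_nonneg_right (hAc t) (by linarith : 0 ≤ X - Y)
        nlinarith
      · intro x hx y hy
        have h1 : Real.sqrt (-2 * x) ≤ 1 / ρ := by
          have h2 : 0 < Real.sqrt (-2 * x) := Real.sqrt_pos.2 (by linarith [hx.1])
          have h3 : ρ ^ 2 ≤ (ptc t x).1 ^ 2 + (ptc t x).2 ^ 2 := hx.2
          unfold ptc at h3
          rw [norm_polar] at h3
          have h4 : ρ ≤ (Real.sqrt (-2 * x))⁻¹ :=
            (pow_le_pow_iff_left₀ hρ.le (inv_nonneg.2 h2.le) (by norm_num)).1 h3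
          rw [one_div]
          exact (le_inv_comm₀ hρ h2).1 h4
        have h0 := Real.sqrt_nonneg (-2 * x)
        have h2 := Real.sqrt_nonneg (-2 * y)
        have h5 : Real.sqrt (-2 * x) ^ 2 ≤ (1 / ρ) ^ 2 := pow_le_pow_left₀ h0 h1 2
        have h6 := mul_le_mul_of_nonneg_left h5 (abs_nonneg a)
        have h7 := mul_le_mul_of_nonneg_left h1 (by positivity : 0 ≤ |b| + |c|)
        have h8 : 0 ≤ |a| * Real.sqrt (-2 * y) ^ 2 + (|b| + |c|) * Real.sqrt (-2 * y) := by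
          positivity
        have h9 : |a| / ρ ^ 2 + (|b| + |c|) / ρ = |a| * (1 / ρ) ^ 2 + (|b| + |c|) * (1 / ρ) := by
          ring
        rw [h9]
        linarith
    calc ENNReal.ofReal (1 / (2 * Real.pi)) *
          ∫⁻ t in Icc 0 (2 * Real.pi), eVariationOn (fc a b c d e f t) (Vc A t)
        ≤ ENNReal.ofReal (1 / (2 * Real.pi)) *
          ∫⁻ _ in Icc 0 (2 * Real.pi), ENNReal.ofReal (|a| / ρ ^ 2 + (|b| + |c|) / ρ) :=
          mul_le_mul_right (lintegral_mono fun t => hv t) _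
      _ = ENNReal.ofReal (|a| / ρ ^ 2 + (|b| + |c|) / ρ) := by
          rw [lintegral_const, Measure.restrict_apply MeasurableSet.univ, univ_inter,
            Real.volume_Icc, sub_zero, mul_comm (ENNReal.ofReal (|a| / ρ ^ 2 + (|b| + |c|) / ρ)),
            ← mul_assoc, ← ENNReal.ofReal_mul (by positivity)]
          have h3 : 1 / (2 * Real.pi) * (2 * Real.pi) = 1 := by
            field_simp
          rw [h3, ENNReal.ofReal_one, one_mul]

end Pool.Agent.TH275.QM.Cub
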