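import Pool.Agent.TH275.QM.Mean

/-! # Quadratic systems: the mean number of closed orbits around a focus in a region -/

open Set MeasureTheory Topology Filter intervalIntegral
open scoped ENNReal

namespace Pool.Agent.TH275.QM

open Pool.Agent.H811R2.Quad

/-- the integral of `|cos (k θ + φ)|` -/
lemma integral_abs_cos (k : ℤ) (hk : k ≠ 0) (φ : ℝ) :
    ∫ θ in (0:ℝ)..(2 * Real.pi), |Real.cos (k * θ + φ)| = 4 := by
  have hk' : (k : ℝ) ≠ 0 := by exact_mod_cast hk
  have hper : Function.Periodic (fun x : ℝ => |Real.cos x|) Real.pi := by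
    intro x
    simp only [Real.cos_add_pi, abs_neg]
  have hc : Continuous fun x : ℝ => |Real.cos x| := Real.continuous_cos.abs
  have h1 := intervalIntegral.integral_comp_mul_add (a := 0) (b := 2 * Real.pi)
    (fun x : ℝ => |Real.cos x|) hk' φ
  rw [h1]
  have h2 : (k : ℝ) * (2 * Real.pi) + φ = φ + (2 * k) • Real.pi := by
    rw [zsmul_eq_mul]; push_cast; ring
  rw [mul_zero, zero_add, h2, hper.intervalIntegral_add_zsmul_eq (2 * k) φ
    (fun a b => hc.intervalIntegrable a b)]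
  have h3 : ∫ x in φ..φ + Real.pi, |Real.cos x| = ∫ x in (-(Real.pi / 2))..(-(Real.pi / 2)) + Real.pi,
      |Real.cos x| := hper.intervalIntegral_add_eq φ (-(Real.pi / 2))
  have h4 : ∫ x in (-(Real.pi / 2))..(-(Real.pi / 2)) + Real.pi, |Real.cos x| = 2 := by
    rw [show -(Real.pi / 2) + Real.pi = Real.pi / 2 by ring]
    have h5 : ∫ x in (-(Real.pi / 2))..(Real.pi / 2), |Real.cos x| =
        ∫ x in (-(Real.pi / 2))..(Real.pi / 2), Real.cos x := by
      apply integral_congr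
      intro x hx
      rw [uIcc_of_le (by linarith [Real.pi_pos])] at hx
      exact abs_of_nonneg (Real.cos_nonneg_of_mem_Icc hx)
    rw [h5, integral_cos]
    simp
    norm_num
  rw [h3, h4, zsmul_eq_mul, smul_eq_mul]
  push_cast
  field_simp
  norm_num

/-- the function `c(θ) = 2 Re (A e^{iθ} - C e^{-3iθ})` -/
noncomputable def cf (A C : ℂ) (θ : ℝ) : ℝ :=
  2 * (A * Complex.exp (θ * Complex.I) - C * Complex.exp (-(3 * θ) * Complex.I)).re

lemma cf_trig (A C : ℂ) (θ : ℝ) : cf A C θ = 2 * (A.re * Real.cos θ - A.im * Real.sin θ) -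
    2 * (C.re * Real.cos (3 * θ) + C.im * Real.sin (3 * θ)) := by
  unfold cf
  have h : (-(3 * (θ:ℂ)) * Complex.I) = ((-(3 * θ) : ℝ) : ℂ) * Complex.I := by push_cast; ring
  rw [h, TH234.QH.exp_I, TH234.QH.exp_I, Real.cos_neg, Real.sin_neg]
  simp only [Complex.sub_re, Complex.mul_re]
  ring

lemma cf_eq (A B C : ℂ) (θ : ℝ) : TH234.QH.g1 A B C θ + TH234.QH.g2' A B C θ = cf A C θ := by
  rw [cf_trig]
  unfold TH234.QH.g1 TH234.QH.g2' trig
  ring

lemma cont_cf (A C : ℂ) : Continuous (cf A C) := by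
  have : cf A C = fun θ => 2 * (A.re * Real.cos θ - A.im * Real.sin θ) -
      2 * (C.re * Real.cos (3 * θ) + C.im * Real.sin (3 * θ)) := funext fun θ => cf_trig A C θ
  rw [this]
  fun_prop

lemma integral_cf (A C : ℂ) : ∫ θ in (0:ℝ)..(2 * Real.pi), cf A C θ = 0 := by
  have hd : ∀ θ : ℝ, HasDerivAt (fun θ => 2 * (A.re * Real.sin θ + A.im * Real.cos θ) -
      2 * (C.re * (Real.sin (3 * θ) / 3) - C.im * (Real.cos (3 * θ) / 3))) (cf A C θ) θ := by
    intro θ
    have h3 : HasDerivAt (fun θ : ℝ => 3 * θ) 3 θ := by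
      simpa using (hasDerivAt_id θ).const_mul (3:ℝ)
    have hs := Real.hasDerivAt_sin θ
    have hc := Real.hasDerivAt_cos θ
    have hs3 := h3.sin
    have hc3 := h3.cos
    refine ((((hs.const_mul A.re).add (hc.const_mul A.im)).const_mul 2).sub
      ((((hs3.div_const 3).const_mul C.re).sub ((hc3.div_const 3).const_mul C.im)).const_mul
        2)).congr_deriv ?_
    rw [cf_trig]
    ring
  rw [integral_eq_sub_of_hasDerivAt (fun θ _ => hd θ) ((cont_cf A C).intervalIntegrable _ _)]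
  have e1 : Real.sin (3 * (2 * Real.pi)) = 0 := by
    have := Real.sin_nat_mul_pi 6
    rw [← this]; congr 1; push_cast; ring
  have e2 : Real.cos (3 * (2 * Real.pi)) = 1 := by
    have := Real.cos_nat_mul_two_pi 3
    rw [← this]; congr 1
  simp only [e1, e2, Real.sin_two_pi, Real.cos_two_pi, mul_zero, Real.sin_zero, Real.cos_zero]
  ring

lemma re_mul_exp (a : ℂ) (k : ℤ) (θ : ℝ) : (a * Complex.exp (k * θ * Complex.I)).re =
    ‖a‖ * Real.cos (k * θ + a.arg) := by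
  have h1 : a = ‖a‖ * Complex.exp (a.arg * Complex.I) := (Complex.norm_mul_exp_arg_mul_I a).symm
  have h2 : a * Complex.exp (k * θ * Complex.I) =
      ((‖a‖ : ℝ) : ℂ) * Complex.exp (((k * θ + a.arg : ℝ) : ℂ) * Complex.I) := by
    conv_lhs => rw [h1]
    rw [mul_assoc, ← Complex.exp_add]
    congr 2
    push_cast
    ring
  rw [h2, Complex.re_ofReal_mul, Complex.exp_ofReal_mul_I_re]

lemma integral_abs_cf (A C : ℂ) :
    ∫ θ in (0:ℝ)..(2 * Real.pi), |cf A C θ| ≤ 8 * (‖A‖ + ‖C‖) := by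
  have h1 : ∀ θ : ℝ, |cf A C θ| ≤ 2 * ‖A‖ * |Real.cos ((1:ℤ) * θ + A.arg)| +
      2 * ‖C‖ * |Real.cos ((-3:ℤ) * θ + C.arg)| := by
    intro θ
    have e1 := re_mul_exp A 1 θ
    have e2 := re_mul_exp C (-3) θ
    have e3 : cf A C θ = 2 * (‖A‖ * Real.cos ((1:ℤ) * θ + A.arg)) -
        2 * (‖C‖ * Real.cos ((-3:ℤ) * θ + C.arg)) := by
      rw [← e1, ← e2]
      unfold cf
      rw [Complex.sub_re]
      push_cast
      rw [one_mul, show (-3 : ℂ) * θ * Complex.I = -(3 * (θ:ℂ)) * Complex.I by ring]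
      ring
    rw [e3]
    refine (abs_sub _ _).trans (le_of_eq ?_)
    simp only [abs_mul, abs_two, abs_norm]
    ring
  have hc1 : Continuous fun θ : ℝ => |Real.cos ((1:ℤ) * θ + A.arg)| := by fun_prop
  have hc2 : Continuous fun θ : ℝ => |Real.cos ((-3:ℤ) * θ + C.arg)| := by fun_prop
  calc ∫ θ in (0:ℝ)..(2 * Real.pi), |cf A C θ|
      ≤ ∫ θ in (0:ℝ)..(2 * Real.pi), (2 * ‖A‖ * |Real.cos ((1:ℤ) * θ + A.arg)| +
          2 * ‖C‖ * |Real.cos ((-3:ℤ) * θ + C.arg)|) := by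
        apply integral_mono_on (by positivity) ((cont_cf A C).abs.intervalIntegrable _ _)
        · apply Continuous.intervalIntegrable
          exact (continuous_const.mul hc1).add (continuous_const.mul hc2)
        · intro θ _
          exact h1 θ
    _ = 8 * (‖A‖ + ‖C‖) := by
        have i1 : IntervalIntegrable (fun θ : ℝ => 2 * ‖A‖ * |Real.cos ((1:ℤ) * θ + A.arg)|)
            volume 0 (2 * Real.pi) := (continuous_const.mul hc1).intervalIntegrable _ _
        have i2 : IntervalIntegrable (fun θ : ℝ => 2 * ‖C‖ * |Real.cos ((-3:ℤ) * θ + C.arg)|)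
            volume 0 (2 * Real.pi) := (continuous_const.mul hc2).intervalIntegrable _ _
        rw [intervalIntegral.integral_add i1 i2, intervalIntegral.integral_const_mul,
          intervalIntegral.integral_const_mul, integral_abs_cos 1 (by norm_num),
          integral_abs_cos (-3) (by norm_num)]
        ring

/-- The closed orbits of `z' = X z` around the origin which are contained in `D`. -/
def orbs (X : ℂ → ℂ) (D : Set ℂ) : Set (Set ℂ) := {Γ | Γ ∈ around X ∧ Γ ⊆ D}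

/-- lower end of the interval of the parameters -/
noncomputable def lo (A C : ℂ) (ρ0 ρ1 : ℝ → ℝ) : ℝ :=
  (∫ θ in (0:ℝ)..(2 * Real.pi), (max (-cf A C θ) 0 * ρ0 θ - max (cf A C θ) 0 * ρ1 θ)) /
    (2 * Real.pi)

/-- upper end of the interval of the parameters -/
noncomputable def hi (A C : ℂ) (ρ0 ρ1 : ℝ → ℝ) : ℝ :=
  (∫ θ in (0:ℝ)..(2 * Real.pi), (max (-cf A C θ) 0 * ρ1 θ - max (cf A C θ) 0 * ρ0 θ)) /
    (2 * Real.pi)

lemma hi_sub_lo (A C : ℂ) {ρ0 ρ1 : ℝ → ℝ} (hρ0 : Continuous ρ0) (hρ1 : Continuous ρ1) :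
    hi A C ρ0 ρ1 - lo A C ρ0 ρ1 = (1 / (2 * Real.pi)) *
      ∫ θ in (0:ℝ)..(2 * Real.pi), |cf A C θ| * (ρ1 θ - ρ0 θ) := by
  have hc := cont_cf A C
  unfold hi lo
  rw [← sub_div, ← intervalIntegral.integral_sub (by apply Continuous.intervalIntegrable; fun_prop)
    (by apply Continuous.intervalIntegrable; fun_prop), div_eq_inv_mul, one_div]
  congr 1
  apply integral_congr
  intro θ _
  simp only
  rcases le_total 0 (cf A C θ) with h | h
  · rw [max_eq_right (by linarith), max_eq_left h, abs_of_nonneg h]; ring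
  · rw [max_eq_left (by linarith), max_eq_right h, abs_of_nonpos h]; ring

lemma orbs_sub (μ : ℝ) (A B C : ℂ) {D : Set ℂ} {ρ0 ρ1 : ℝ → ℝ}
    (hD : ∀ r θ : ℝ, 0 < r → (r:ℂ) * Complex.exp (θ * Complex.I) ∈ D → ρ0 θ ≤ r ∧ r ≤ ρ1 θ) :
    orbs (TH234.QH.field μ A B C) D ⊆
      curve 1 '' Gr (TH234.QH.g1 A B C) (TH234.QH.g2 A B C) ρ0 ρ1 μ := by
  rintro Γ ⟨hΓ, hΓD⟩
  obtain ⟨v, hv, rfl⟩ := around_sub (TH234.QH.continuous_field μ A B C) one_pos
    (TH234.QH.contDiff_g1 A B C) (TH234.QH.contDiff_g2 A B C) (fun θ => trig_anti _ _ _ _ θ)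
    (fun θ => trig_anti _ _ _ _ θ) (fun r θ _ => TH234.QH.field_polar μ A B C r θ) hΓ
  have hv' : PSol (TH234.QH.g1 A B C) (TH234.QH.g2 A B C) μ v := by simpa using hv
  refine ⟨v, ⟨hv', fun θ => ?_⟩, rfl⟩
  have hpos := hv'.pos θ
  apply hD (1 / v θ) θ (by positivity)
  apply hΓD
  refine ⟨θ, ?_⟩
  simp only
  rw [Complex.exp_add, ← Complex.ofReal_exp, Nat.cast_one, div_one, Real.exp_neg,
    Real.exp_log hpos, one_div]

theorem region (A B C : ℂ) {D : Set ℂ} {ρ0 ρ1 : ℝ → ℝ} (hρ0 : Continuous ρ0)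
    (hρ1 : Continuous ρ1)
    (hD : ∀ r θ : ℝ, 0 < r → (r:ℂ) * Complex.exp (θ * Complex.I) ∈ D → ρ0 θ ≤ r ∧ r ≤ ρ1 θ) :
    (∀ μ, (orbs (TH234.QH.field μ A B C) D).Nonempty → μ ∈ Icc (lo A C ρ0 ρ1) (hi A C ρ0 ρ1)) ∧
    ∃ g : ℝ → ℝ≥0∞, Measurable g ∧
      (∀ μ, ((orbs (TH234.QH.field μ A B C) D).encard : ℝ≥0∞) ≤ g μ) ∧
      ∫⁻ μ, g μ ≤ ENNReal.ofReal (hi A C ρ0 ρ1 - lo A C ρ0 ρ1) := by
  have hg1 := (TH234.QH.contDiff_g1 A B C).continuous
  have hg2' : Continuous (TH234.QH.g2' A B C) := continuous_trig _ _ _ _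
  have hper2 : ∀ θ, TH234.QH.g2 A B C (θ + 2 * Real.pi) = TH234.QH.g2 A B C θ :=
    fun θ => trig_per _ _ _ _ θ
  have hpi : 0 < 2 * Real.pi := by positivity
  constructor
  · rintro μ ⟨Γ, hΓ⟩
    obtain ⟨v, ⟨h1, h2⟩, -⟩ := orbs_sub μ A B C hD hΓ
    have e1 := range_lower hg1 (TH234.QH.deriv_g2 A B C) hg2' hper2 h1 hρ0 hρ1 h2
    have e2 := range_upper hg1 (TH234.QH.deriv_g2 A B C) hg2' hper2 h1 hρ0 hρ1 h2
    simp only [cf_eq] at e1 e2
    constructor
    · unfold lo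
      rw [div_le_iff₀ hpi]; linarith
    · unfold hi
      rw [le_div_iff₀ hpi]; linarith
  · obtain ⟨g, hg1', hg2'', hg3⟩ := mean hg1 (TH234.QH.deriv_g2 A B C) hg2' hper2 hρ0 hρ1
    refine ⟨g, hg1', fun μ => le_trans ?_ (hg2'' μ), ?_⟩
    · refine ENat.toENNReal_le.2 ?_
      exact (Set.encard_le_encard (orbs_sub μ A B C hD)).trans (Set.encard_image_le _ _)
    · rw [hi_sub_lo A C hρ0 hρ1]
      simp only [cf_eq] at hg3
      exact hg3

theorem disc (A B C : ℂ) {R : ℝ} (hR : 0 < R) :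
    (∀ μ, (orbs (TH234.QH.field μ A B C) (Metric.closedBall 0 R)).Nonempty →
      |μ| ≤ 2 / Real.pi * (‖A‖ + ‖C‖) * R) ∧
    ∃ g : ℝ → ℝ≥0∞, Measurable g ∧
      (∀ μ, ((orbs (TH234.QH.field μ A B C) (Metric.closedBall 0 R)).encard : ℝ≥0∞) ≤ g μ) ∧
      ∫⁻ μ, g μ ≤ ENNReal.ofReal (2 * (2 / Real.pi * (‖A‖ + ‖C‖) * R)) := by
  have hD : ∀ r θ : ℝ, 0 < r → (r:ℂ) * Complex.exp (θ * Complex.I) ∈ Metric.closedBall (0:ℂ) R →
      (fun _ : ℝ => (0:ℝ)) θ ≤ r ∧ r ≤ (fun _ : ℝ => R) θ := by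
    intro r θ hr h
    rw [mem_closedBall_zero_iff, norm_mul, Complex.norm_exp_ofReal_mul_I, mul_one,
      Complex.norm_real, Real.norm_eq_abs, abs_of_pos hr] at h
    exact ⟨hr.le, h⟩
  obtain ⟨h1, g, h2, h3, h4⟩ := region A B C continuous_const continuous_const hD
  have hc := cont_cf A C
  have hpi : 0 < 2 * Real.pi := by positivity
  set Ip := ∫ θ in (0:ℝ)..(2 * Real.pi), max (cf A C θ) 0 with hIp
  set Im := ∫ θ in (0:ℝ)..(2 * Real.pi), max (-cf A C θ) 0 with hIm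
  have ip : IntervalIntegrable (fun θ => max (cf A C θ) 0) volume 0 (2 * Real.pi) := by
    apply Continuous.intervalIntegrable; fun_prop
  have im : IntervalIntegrable (fun θ => max (-cf A C θ) 0) volume 0 (2 * Real.pi) := by
    apply Continuous.intervalIntegrable; fun_prop
  have e1 : Ip - Im = 0 := by
    refine Eq.trans ?_ (integral_cf A C)
    rw [hIp, hIm, ← intervalIntegral.integral_sub ip im]
    apply integral_congr
    intro θ _
    simp only
    rcases le_total 0 (cf A C θ) with h | h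
    · rw [max_eq_left h, max_eq_right (by linarith)]; ring
    · rw [max_eq_right h, max_eq_left (by linarith)]; ring
  have e2 : Ip + Im ≤ 8 * (‖A‖ + ‖C‖) := by
    refine le_trans (le_of_eq ?_) (integral_abs_cf A C)
    rw [hIp, hIm, ← intervalIntegral.integral_add ip im]
    apply integral_congr
    intro θ _
    simp only
    rcases le_total 0 (cf A C θ) with h | h
    · rw [max_eq_left h, max_eq_right (by linarith), abs_of_nonneg h]; ring
    · rw [max_eq_right h, max_eq_left (by linarith), abs_of_nonpos h]; ring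
  have e3 : hi A C (fun _ => 0) (fun _ => R) = Im * R / (2 * Real.pi) := by
    unfold hi
    congr 1
    rw [hIm, ← intervalIntegral.integral_mul_const]
    apply integral_congr
    intro θ _
    simp only
    ring
  have e4 : lo A C (fun _ => 0) (fun _ => R) = -(Ip * R / (2 * Real.pi)) := by
    unfold lo
    rw [← neg_div]
    congr 1
    rw [hIp, ← intervalIntegral.integral_mul_const, ← intervalIntegral.integral_neg]
    apply integral_congr
    intro θ _
    simp only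
    ring
  have e5 : Im ≤ 4 * (‖A‖ + ‖C‖) := by linarith
  have e6 : Ip = Im := by linarith
  have e7 : Im * R / (2 * Real.pi) ≤ 2 / Real.pi * (‖A‖ + ‖C‖) * R := by
    rw [div_le_iff₀ hpi]
    have e8 : 2 / Real.pi * (‖A‖ + ‖C‖) * R * (2 * Real.pi) = 4 * (‖A‖ + ‖C‖) * R := by
      have := Real.pi_pos.ne'
      field_simp
      ring
    rw [e8]
    exact mul_le_mul_of_nonneg_right e5 hR.le
  refine ⟨fun μ hμ => ?_, g, h2, h3, h4.trans (ENNReal.ofReal_le_ofReal ?_)⟩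
  · have h5 := h1 μ hμ
    rw [e3, e4, e6] at h5
    exact abs_le.2 ⟨by linarith [h5.1], h5.2.trans e7⟩
  · rw [e3, e4, e6]
    linarith

end Pool.Agent.TH275.QM
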