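import Pool.Agent.TH234.QH.Main
import Pool.Agent.TH525.PU.Ind

/-! # Quadratic systems: the trace at a focus as an additive parameter

For `θ' = 1 + r G₂(θ)`, `r' = r (μ + r G₁(θ))` the function `log r + r G₂` has the derivative
`μ + r (G₁ + G₂')` with respect to `θ`. Hence `2 π μ = - ∫ r (G₁ + G₂')` along closed orbits. -/

open Set MeasureTheory Topology Filter intervalIntegral
open scoped ENNReal

namespace Pool.Agent.TH275.QM

open Pool.Agent.H811R2.Quad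

variable {G1 G2 G2' : ℝ → ℝ}

/-- The flux identity without a cut-off. -/
lemma flux (hG1 : Continuous G1) (hG2 : ∀ θ, HasDerivAt G2 (G2' θ) θ) (hG2' : Continuous G2')
    (hper2 : ∀ θ, G2 (θ + 2 * Real.pi) = G2 θ) {μ : ℝ} {v : ℝ → ℝ} (h : PSol G1 G2 μ v) :
    2 * Real.pi * μ = -∫ θ in (0:ℝ)..(2 * Real.pi), (G1 θ + G2' θ) / v θ := by
  have hG2c : Continuous G2 := continuous_iff_continuousAt.2 fun θ => (hG2 θ).continuousAt
  have hvc := h.cont
  have hne : ∀ θ, v θ ≠ 0 := fun θ => (h.pos θ).ne'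
  have hc : Continuous fun θ => (G1 θ + G2' θ) / v θ := (hG1.add hG2').div hvc hne
  have hWd : ∀ θ, HasDerivAt (fun θ => -Real.log (v θ) + G2 θ / v θ)
      (μ + (G1 θ + G2' θ) / v θ) θ := by
    intro θ
    have hv := h.deriv θ
    have p1 := (h.pos θ).ne'
    have p2 := (h.pos' θ).ne'
    refine ((hv.log p1).neg.add ((hG2 θ).div hv p1)).congr_deriv ?_
    field_simp
    ring
  have hint := integral_eq_sub_of_hasDerivAt (a := 0) (b := 2 * Real.pi)
    (fun θ _ => hWd θ) ((continuous_const.add hc).intervalIntegrable _ _)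
  have e1 := h.per 0
  have e2 := hper2 0
  rw [zero_add] at e1 e2
  rw [e1, e2, sub_self, integral_add (continuous_const.intervalIntegrable _ _)
    (hc.intervalIntegrable _ _), intervalIntegral.integral_const] at hint
  simp only [sub_zero, smul_eq_mul] at hint
  linarith

/-- `ρ₀ ≤ r ≤ ρ₁` along the graph, `r = 1 / v` -/
def Btw (ρ0 ρ1 v : ℝ → ℝ) : Prop := ∀ θ, ρ0 θ ≤ 1 / v θ ∧ 1 / v θ ≤ ρ1 θ

lemma range_upper (hG1 : Continuous G1) (hG2 : ∀ θ, HasDerivAt G2 (G2' θ) θ)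
    (hG2' : Continuous G2') (hper2 : ∀ θ, G2 (θ + 2 * Real.pi) = G2 θ) {μ : ℝ} {v : ℝ → ℝ}
    (h : PSol G1 G2 μ v) {ρ0 ρ1 : ℝ → ℝ} (hρ0 : Continuous ρ0) (hρ1 : Continuous ρ1)
    (hv : Btw ρ0 ρ1 v) :
    2 * Real.pi * μ ≤ ∫ θ in (0:ℝ)..(2 * Real.pi),
      (max (-(G1 θ + G2' θ)) 0 * ρ1 θ - max (G1 θ + G2' θ) 0 * ρ0 θ) := by
  rw [flux hG1 hG2 hG2' hper2 h, ← intervalIntegral.integral_neg]
  have hvc := h.cont
  have hne : ∀ θ, v θ ≠ 0 := fun θ => (h.pos θ).ne'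
  have hc : Continuous fun θ => (G1 θ + G2' θ) / v θ := (hG1.add hG2').div hvc hne
  apply integral_mono_on (by positivity) (hc.neg.intervalIntegrable _ _)
  · apply Continuous.intervalIntegrable
    exact (((hG1.add hG2').neg.max continuous_const).mul hρ1).sub
      (((hG1.add hG2').max continuous_const).mul hρ0)
  · intro θ _
    simp only [Pi.sub_apply, Pi.mul_apply, Pi.add_apply, Pi.neg_apply]
    obtain ⟨h1, h2⟩ := hv θ
    have e : -((G1 θ + G2' θ) / v θ) =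
        max (-(G1 θ + G2' θ)) 0 * (1 / v θ) - max (G1 θ + G2' θ) 0 * (1 / v θ) := by
      rcases le_total 0 (G1 θ + G2' θ) with h0 | h0
      · rw [max_eq_right (by linarith), max_eq_left h0]; ring
      · rw [max_eq_left (by linarith), max_eq_right h0]; ring
    rw [e]
    exact sub_le_sub (mul_le_mul_of_nonneg_left h2 (le_max_right _ _))
      (mul_le_mul_of_nonneg_left h1 (le_max_right _ _))

lemma range_lower (hG1 : Continuous G1) (hG2 : ∀ θ, HasDerivAt G2 (G2' θ) θ)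
    (hG2' : Continuous G2') (hper2 : ∀ θ, G2 (θ + 2 * Real.pi) = G2 θ) {μ : ℝ} {v : ℝ → ℝ}
    (h : PSol G1 G2 μ v) {ρ0 ρ1 : ℝ → ℝ} (hρ0 : Continuous ρ0) (hρ1 : Continuous ρ1)
    (hv : Btw ρ0 ρ1 v) :
    ∫ θ in (0:ℝ)..(2 * Real.pi),
      (max (-(G1 θ + G2' θ)) 0 * ρ0 θ - max (G1 θ + G2' θ) 0 * ρ1 θ) ≤ 2 * Real.pi * μ := by
  rw [flux hG1 hG2 hG2' hper2 h, ← intervalIntegral.integral_neg]
  have hvc := h.cont
  have hne : ∀ θ, v θ ≠ 0 := fun θ => (h.pos θ).ne'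
  have hc : Continuous fun θ => (G1 θ + G2' θ) / v θ := (hG1.add hG2').div hvc hne
  apply integral_mono_on (by positivity) _ (hc.neg.intervalIntegrable _ _)
  · intro θ _
    simp only [Pi.sub_apply, Pi.mul_apply, Pi.add_apply, Pi.neg_apply]
    obtain ⟨h1, h2⟩ := hv θ
    have e : -((G1 θ + G2' θ) / v θ) =
        max (-(G1 θ + G2' θ)) 0 * (1 / v θ) - max (G1 θ + G2' θ) 0 * (1 / v θ) := by
      rcases le_total 0 (G1 θ + G2' θ) with h0 | h0
      · rw [max_eq_right (by linarith), max_eq_left h0]; ring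
      · rw [max_eq_left (by linarith), max_eq_right h0]; ring
    rw [e]
    exact sub_le_sub (mul_le_mul_of_nonneg_left h1 (le_max_right _ _))
      (mul_le_mul_of_nonneg_left h2 (le_max_right _ _))
  · apply Continuous.intervalIntegrable
    exact (((hG1.add hG2').neg.max continuous_const).mul hρ0).sub
      (((hG1.add hG2').max continuous_const).mul hρ1)

/-- the weighted length of a periodic graph -/
noncomputable def len (G1 G2' v : ℝ → ℝ) : ℝ :=
  ∫ θ in (0:ℝ)..(2 * Real.pi), |G1 θ + G2' θ| / v θ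

lemma len_sub_le (hG1 : Continuous G1) (hG2' : Continuous G2') {v w : ℝ → ℝ}
    (hvc : Continuous v) (hwc : Continuous w) (hv0 : ∀ θ, 0 < v θ) (hw0 : ∀ θ, 0 < w θ)
    {ρ0 ρ1 : ℝ → ℝ} (hρ0 : Continuous ρ0) (hρ1 : Continuous ρ1) (hv : Btw ρ0 ρ1 v)
    (hw : Btw ρ0 ρ1 w) :
    len G1 G2' w - len G1 G2' v ≤
      ∫ θ in (0:ℝ)..(2 * Real.pi), |G1 θ + G2' θ| * (ρ1 θ - ρ0 θ) := by
  have a1 : Continuous fun θ => |G1 θ + G2' θ| / v θ :=
    (hG1.add hG2').abs.div hvc fun θ => (hv0 θ).ne'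
  have a2 : Continuous fun θ => |G1 θ + G2' θ| / w θ :=
    (hG1.add hG2').abs.div hwc fun θ => (hw0 θ).ne'
  unfold len
  rw [← integral_sub (a2.intervalIntegrable _ _) (a1.intervalIntegrable _ _)]
  apply integral_mono_on (by positivity) ((a2.sub a1).intervalIntegrable _ _)
    (((hG1.add hG2').abs.mul (hρ1.sub hρ0)).intervalIntegrable _ _)
  intro θ _
  simp only [Pi.sub_apply, Pi.mul_apply, Pi.add_apply, Pi.neg_apply]
  have e : |G1 θ + G2' θ| / w θ - |G1 θ + G2' θ| / v θ =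
      |G1 θ + G2' θ| * (1 / w θ - 1 / v θ) := by ring
  rw [e]
  exact mul_le_mul_of_nonneg_left (sub_le_sub (hw θ).2 (hv θ).1) (abs_nonneg _)

/-- the parameters of two nested closed orbits -/
lemma step (hG1 : Continuous G1) (hG2 : ∀ θ, HasDerivAt G2 (G2' θ) θ)
    (hG2' : Continuous G2') (hper2 : ∀ θ, G2 (θ + 2 * Real.pi) = G2 θ) {μ1 μ2 : ℝ}
    {v1 v2 : ℝ → ℝ} (h1 : PSol G1 G2 μ1 v1) (h2 : PSol G1 G2 μ2 v2) (hle : ∀ θ, v2 θ ≤ v1 θ) :
    2 * Real.pi * |μ2 - μ1| ≤ len G1 G2' v2 - len G1 G2' v1 := by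
  have c1 : Continuous fun θ => (G1 θ + G2' θ) / v1 θ :=
    (hG1.add hG2').div h1.cont fun θ => (h1.pos θ).ne'
  have c2 : Continuous fun θ => (G1 θ + G2' θ) / v2 θ :=
    (hG1.add hG2').div h2.cont fun θ => (h2.pos θ).ne'
  have a1 : Continuous fun θ => |G1 θ + G2' θ| / v1 θ :=
    (hG1.add hG2').abs.div h1.cont fun θ => (h1.pos θ).ne'
  have a2 : Continuous fun θ => |G1 θ + G2' θ| / v2 θ :=
    (hG1.add hG2').abs.div h2.cont fun θ => (h2.pos θ).ne'
  have e1 := flux hG1 hG2 hG2' hper2 h1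
  have e2 := flux hG1 hG2 hG2' hper2 h2
  have e3 : 2 * Real.pi * (μ2 - μ1) =
      ∫ θ in (0:ℝ)..(2 * Real.pi), ((G1 θ + G2' θ) / v1 θ - (G1 θ + G2' θ) / v2 θ) := by
    rw [integral_sub (c1.intervalIntegrable _ _) (c2.intervalIntegrable _ _)]
    linarith
  have e4 : 2 * Real.pi * |μ2 - μ1| = |2 * Real.pi * (μ2 - μ1)| := by
    rw [abs_mul, abs_of_pos (by positivity : 0 < 2 * Real.pi)]
  rw [e4, e3]
  unfold len
  rw [← integral_sub (a2.intervalIntegrable _ _) (a1.intervalIntegrable _ _)]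
  refine (abs_integral_le_integral_abs (by positivity)).trans ?_
  apply integral_mono_on (by positivity) ((c1.sub c2).abs.intervalIntegrable _ _)
    ((a2.sub a1).intervalIntegrable _ _)
  intro θ _
  simp only [Pi.sub_apply, Pi.mul_apply, Pi.add_apply, Pi.neg_apply]
  have p1 := h1.pos θ
  have p2 := h2.pos θ
  have p3 : 1 / v1 θ ≤ 1 / v2 θ := one_div_le_one_div_of_le p2 (hle θ)
  have e5 : (G1 θ + G2' θ) / v1 θ - (G1 θ + G2' θ) / v2 θ =
      -((G1 θ + G2' θ) * (1 / v2 θ - 1 / v1 θ)) := by ring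
  rw [e5, abs_neg, abs_mul, abs_of_nonneg (by linarith : 0 ≤ 1 / v2 θ - 1 / v1 θ)]
  apply le_of_eq
  ring

end Pool.Agent.TH275.QM
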