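import Pool.Agent.TH275.QM.Flux

/-! # The mean number of closed graphs over the parameter -/

open Set MeasureTheory Topology Filter intervalIntegral
open scoped ENNReal

namespace Pool.Agent.TH275.QM

open Pool.Agent.H811R2.Quad Pool.Agent.TH525.PU

variable {G1 G2 G2' : ℝ → ℝ}

/-- the closed graphs in the region, with parameter `μ` -/
def Gr (G1 G2 : ℝ → ℝ) (ρ0 ρ1 : ℝ → ℝ) (μ : ℝ) : Set (ℝ → ℝ) :=
  {v | PSol G1 G2 μ v ∧ Btw ρ0 ρ1 v}

theorem mean (hG1 : Continuous G1) (hG2 : ∀ θ, HasDerivAt G2 (G2' θ) θ)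
    (hG2' : Continuous G2') (hper2 : ∀ θ, G2 (θ + 2 * Real.pi) = G2 θ)
    {ρ0 ρ1 : ℝ → ℝ} (hρ0 : Continuous ρ0) (hρ1 : Continuous ρ1) :
    ∃ g : ℝ → ℝ≥0∞, Measurable g ∧ (∀ μ, ((Gr G1 G2 ρ0 ρ1 μ).encard : ℝ≥0∞) ≤ g μ) ∧
      ∫⁻ μ, g μ ≤ ENNReal.ofReal ((1 / (2 * Real.pi)) *
        ∫ θ in (0:ℝ)..(2 * Real.pi), |G1 θ + G2' θ| * (ρ1 θ - ρ0 θ)) := by
  classical
  have hpi : 0 < 2 * Real.pi := by positivity
  have hG2c : Continuous G2 := continuous_iff_continuousAt.2 fun θ => (hG2 θ).continuousAt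
  set E : Set ℝ := {x | ∃ μ v, v ∈ Gr G1 G2 ρ0 ρ1 μ ∧ -v 0 = x} with hE
  have hex : ∀ x, ∃ p : ℝ × (ℝ → ℝ), x ∈ E → p.2 ∈ Gr G1 G2 ρ0 ρ1 p.1 ∧ -p.2 0 = x := by
    intro x
    by_cases hx : x ∈ E
    · obtain ⟨μ, v, h1, h2⟩ := hx
      exact ⟨(μ, v), fun _ => ⟨h1, h2⟩⟩
    · exact ⟨(0, fun _ => 0), fun h => absurd h hx⟩
  choose P hP using hex
  -- two graphs with the same value at `0` coincide
  have heq : ∀ {μ1 μ2 : ℝ} {v1 v2 : ℝ → ℝ}, PSol G1 G2 μ1 v1 → PSol G1 G2 μ2 v2 →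
      v1 0 = v2 0 → v1 = v2 ∧ μ1 = μ2 := by
    intro μ1 μ2 v1 v2 h1 h2 h0
    have hv : v1 = v2 := by
      by_contra hne
      rcases h1.order hG1 hG2c h2 hne with h | h
      · exact absurd (h 0) (by rw [h0]; exact lt_irrefl _)
      · exact absurd (h 0) (by rw [h0]; exact lt_irrefl _)
    refine ⟨hv, ?_⟩
    subst hv
    have e1 := flux hG1 hG2 hG2' hper2 h1
    have e2 := flux hG1 hG2 hG2' hper2 h2
    exact mul_left_cancel₀ hpi.ne' (e1.trans e2.symm)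
  obtain ⟨g, hgm, hg, hgi⟩ := majorant (fun x => (P x).1) E
  refine ⟨g, hgm, fun μ => ?_, hgi.trans ?_⟩
  · refine le_trans ?_ (hg μ)
    refine ENat.toENNReal_le.2 ?_
    refine Set.encard_le_encard_of_injOn (f := fun v : ℝ → ℝ => -v 0) ?_ ?_
    · intro v hv
      have hx : -v 0 ∈ E := ⟨μ, v, hv, rfl⟩
      refine ⟨hx, ?_⟩
      obtain ⟨h1, h2⟩ := hP (-v 0) hx
      exact (heq h1.1 hv.1 (neg_injective h2)).2
    · intro v hv w hw he
      exact (heq hv.1 hw.1 (neg_injective he)).1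
  · refine iSup_le ?_
    rintro ⟨n, u, hu, us⟩
    simp only
    have hs : ∀ i, (P (u i)).2 ∈ Gr G1 G2 ρ0 ρ1 (P (u i)).1 ∧ -(P (u i)).2 0 = u i :=
      fun i => hP (u i) (us i)
    have hle : ∀ i θ, (P (u (i + 1))).2 θ ≤ (P (u i)).2 θ := by
      intro i θ
      by_cases he : (P (u i)).2 = (P (u (i + 1))).2
      · rw [he]
      · rcases (hs i).1.1.order hG1 hG2c (hs (i+1)).1.1 he with h | h
        · exfalso
          have h1 := h 0
          have h2 := (hs i).2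
          have h3 := (hs (i+1)).2
          have h4 := hu (Nat.le_succ i)
          simp only [Nat.succ_eq_add_one] at h4
          linarith
        · exact (h θ).le
    set L : ℕ → ℝ := fun i => len G1 G2' (P (u i)).2 with hL
    have hstep : ∀ i, edist (P (u (i+1))).1 (P (u i)).1 ≤
        ENNReal.ofReal ((1 / (2 * Real.pi)) * (L (i + 1) - L i)) := by
      intro i
      have h1 := step hG1 hG2 hG2' hper2 (hs i).1.1 (hs (i+1)).1.1 (hle i)
      rw [edist_dist, Real.dist_eq]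
      apply ENNReal.ofReal_le_ofReal
      rw [one_div, ← div_eq_inv_mul, le_div_iff₀ hpi]
      simp only [hL]
      linarith
    have hmono : ∀ i, 0 ≤ (1 / (2 * Real.pi)) * (L (i + 1) - L i) := by
      intro i
      have h1 := step hG1 hG2 hG2' hper2 (hs i).1.1 (hs (i+1)).1.1 (hle i)
      have h2 : 0 ≤ L (i + 1) - L i := le_trans (by positivity) h1
      positivity
    refine (Finset.sum_le_sum fun i _ => hstep i).trans ?_
    rw [← ENNReal.ofReal_sum_of_nonneg fun i _ => hmono i]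
    apply ENNReal.ofReal_le_ofReal
    rw [← Finset.mul_sum, Finset.sum_range_sub]
    apply mul_le_mul_of_nonneg_left _ (by positivity)
    exact len_sub_le hG1 hG2' (hs 0).1.1.cont (hs n).1.1.cont (hs 0).1.1.pos (hs n).1.1.pos
      hρ0 hρ1 (hs 0).1.2 (hs n).1.2

end Pool.Agent.TH275.QM
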