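import Pool.Agent.TH275.QM.Stab

/-! # Stable and unstable closed orbits of quadratic systems -/

open Set MeasureTheory Topology Filter intervalIntegral
open scoped ENNReal

namespace Pool.Agent.TH275.QM

open Pool.Agent.H811R2.Quad Pool.Agent.TH234.QH

/-- the exponent of a closed orbit is the exponent of its graph -/
lemma exp_eq {μ : ℝ} {A B C : ℂ} {γ : ℝ → ℂ} {T : ℝ} {v ϑ : ℝ → ℝ}
    (hG : Graph 1 (field μ A B C) (g1 A B C) (g2 A B C) μ γ T v ϑ)
    (hv : PSol (g1 A B C) (g2 A B C) μ v) :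
    exponent (field μ A B C) γ T = Hf (g1 A B C) (g2 A B C) (g2' A B C) μ v := by
  have hg1 := contDiff_g1 A B C
  have hg2 := contDiff_g2 A B C
  have hper2 : ∀ θ, g2 A B C (θ + 2 * Real.pi) = g2 A B C θ := fun θ => trig_per _ _ _ _ θ
  have hper1 : ∀ θ, g1 A B C (θ + 2 * Real.pi) = g1 A B C θ := fun θ => trig_per _ _ _ _ θ
  have hper2' : ∀ θ, g2' A B C (θ + 2 * Real.pi) = g2' A B C θ := fun θ => trig_per _ _ _ _ θ
  have hg2'c : Continuous (g2' A B C) := continuous_trig _ _ _ _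
  have hϑc : Continuous ϑ := continuous_iff_continuousAt.2 fun t => (hG.dθ t).continuousAt
  have hvc : Continuous v := hv.cont
  have hBc : Continuous (Bf (g1 A B C) (g2 A B C) (g2' A B C) μ) := by
    have := hg1.continuous
    have := hg2.continuous
    unfold Bf
    fun_prop
  have hBper : ∀ θ, Bf (g1 A B C) (g2 A B C) (g2' A B C) μ (θ + 2 * Real.pi) =
      Bf (g1 A B C) (g2 A B C) (g2' A B C) μ θ := by
    intro θ
    unfold Bf
    rw [hper1, hper2, hper2']
  have hb : ∀ t, b μ (field μ A B C) (γ t) =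
      -Bf (g1 A B C) (g2 A B C) (g2' A B C) μ (ϑ t) / v (ϑ t) := fun t => b_graph hG t
  have hint : ∀ (β : ℝ → ℝ), Continuous β → (∀ θ, β (θ + 2 * Real.pi) = β θ) →
      ∫ t in (0:ℝ)..T, β (ϑ t) / v (ϑ t) = Jf β (g2 A B C) v :=
    fun β hβ hβp => hG.integral hg2.continuous hper2 hβ hβp
  have hre : ∀ t, (field μ A B C (γ t) / γ t).re = μ + g1 A B C (ϑ t) / v (ϑ t) := by
    intro t; rw [hG.vel t]
    simp only [Complex.add_re, Complex.mul_re, Complex.ofReal_re, Complex.I_re, mul_zero,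
      Complex.ofReal_im, Complex.I_im, mul_one, sub_self, add_zero]
  have him : ∀ t, (field μ A B C (γ t) / γ t).im = 1 + g2 A B C (ϑ t) / v (ϑ t) := by
    intro t; rw [hG.vel t]
    simp only [Complex.add_im, Complex.mul_im, Complex.ofReal_re, Complex.I_re, mul_zero,
      Complex.ofReal_im, Complex.I_im, mul_one, zero_add, add_zero]
  have hvne : ∀ t, v (ϑ t) ≠ 0 := fun t => (hv.pos _).ne'
  have c1 : Continuous fun t => (field μ A B C (γ t) / γ t).re := by
    simp only [hre]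
    exact continuous_const.add (((hg1.continuous).comp hϑc).div (hvc.comp hϑc) hvne)
  have c2 : Continuous fun t => (field μ A B C (γ t) / γ t).im := by
    simp only [him]
    exact continuous_const.add (((hg2.continuous).comp hϑc).div (hvc.comp hϑc) hvne)
  have c3 : Continuous fun t => b μ (field μ A B C) (γ t) := by
    simp only [hb]
    exact ((hBc.comp hϑc).neg).div (hvc.comp hϑc) hvne
  have e1 : ∀ t, divergence (field μ A B C) (γ t) = b μ (field μ A B C) (γ t) +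
      (4 * (field μ A B C (γ t) / γ t).re - 2 * μ * (field μ A B C (γ t) / γ t).im) := by
    intro t; unfold b; ring
  have c4 : Continuous fun t => 4 * (field μ A B C (γ t) / γ t).re := continuous_const.mul c1
  have c5 : Continuous fun t => 2 * μ * (field μ A B C (γ t) / γ t).im := continuous_const.mul c2
  have c6 : Continuous fun t => 4 * (field μ A B C (γ t) / γ t).re -
      2 * μ * (field μ A B C (γ t) / γ t).im := c4.sub c5
  unfold exponent
  simp only [e1]
  rw [intervalIntegral.integral_add (c3.intervalIntegrable _ _) (c6.intervalIntegrable _ _),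
    intervalIntegral.integral_sub (c4.intervalIntegrable _ _)
    (c5.intervalIntegrable _ _), intervalIntegral.integral_const_mul,
    intervalIntegral.integral_const_mul, hG.radial, hG.angle hg2.continuous]
  have e2 : ∫ t in (0:ℝ)..T, b μ (field μ A B C) (γ t) =
      -Jf (Bf (g1 A B C) (g2 A B C) (g2' A B C) μ) (g2 A B C) v := by
    rw [← hint _ hBc hBper, ← intervalIntegral.integral_neg]
    congr 1
    funext t
    rw [hb]
    ring
  rw [e2]
  unfold Hf
  ring

lemma graph_range {μ : ℝ} {A B C : ℂ} {γ : ℝ → ℂ} {T : ℝ} {v ϑ : ℝ → ℝ}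
    (hG : Graph 1 (field μ A B C) (g1 A B C) (g2 A B C) μ γ T v ϑ) :
    Set.range γ = curve 1 v := by
  have hϑc : Continuous ϑ := continuous_iff_continuousAt.2 fun t => (hG.dθ t).continuousAt
  have hs : Function.Surjective ϑ := by
    intro θ
    obtain ⟨n, hn⟩ := exists_nat_gt (|θ - ϑ 0| / (2 * Real.pi))
    rw [div_lt_iff₀ (by positivity)] at hn
    have h1 := iter_shift hG.turn n 0
    have h2 := iter_shift_neg hG.turn n 0
    have h3 := abs_le.1 hn.le
    exact mem_range_of_exists_le_of_exists_ge hϑc ⟨0 - n * T, by linarith [h3.1]⟩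
      ⟨0 + n * T, by linarith [h3.2]⟩
  unfold curve
  ext z
  constructor
  · rintro ⟨t, rfl⟩
    exact ⟨ϑ t, (hG.polar t).symm⟩
  · rintro ⟨θ, rfl⟩
    obtain ⟨t, rfl⟩ := hs θ
    exact ⟨t, hG.polar t⟩

/-- The closed orbits around the origin contained in `D` whose exponent has the sign of `-σ`. -/
def sorbs (σ : ℝ) (X : ℂ → ℂ) (D : Set ℂ) : Set (Set ℂ) :=
  {Γ | ∃ γ T, ClosedOrbit X γ T ∧ Γ = Set.range γ ∧ Γ ⊆ D ∧ σ * exponent X γ T < 0}

theorem sregion (A B C : ℂ) {D : Set ℂ} {ρ0 ρ1 : ℝ → ℝ} (hρ0 : Continuous ρ0)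
    (hρ1 : Continuous ρ1)
    (hD : ∀ r θ : ℝ, 0 < r → (r:ℂ) * Complex.exp (θ * Complex.I) ∈ D → ρ0 θ ≤ r ∧ r ≤ ρ1 θ)
    {σ : ℝ} (hσ : σ = 1 ∨ σ = -1) :
    ∃ g : ℝ → ℝ≥0∞, Measurable g ∧
      (∀ μ, ((sorbs σ (field μ A B C) D).encard : ℝ≥0∞) ≤ g μ) ∧
      ∫⁻ μ, g μ ≤ ENNReal.ofReal ((1 / (2 * Real.pi)) *
        ∫ θ in (0:ℝ)..(2 * Real.pi), max (-(σ * cf A C θ)) 0 * (ρ1 θ - ρ0 θ)) := by
  have hg1 := (contDiff_g1 A B C).continuous
  have hg2' : Continuous (g2' A B C) := continuous_trig _ _ _ _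
  have hper2 : ∀ θ, g2 A B C (θ + 2 * Real.pi) = g2 A B C θ := fun θ => trig_per _ _ _ _ θ
  obtain ⟨g, hgm, hg, hgi⟩ := meanSig hg1 (deriv_g2 A B C) hg2' hper2 hρ0 hρ1 hσ
  simp only [cf_eq] at hgi
  refine ⟨g, hgm, fun μ => le_trans ?_ (hg μ), hgi⟩
  refine ENat.toENNReal_le.2 ?_
  have hsub : sorbs σ (field μ A B C) D ⊆ curve 1 '' {v | v ∈ Gr (g1 A B C) (g2 A B C) ρ0 ρ1 μ ∧
      σ * Hf (g1 A B C) (g2 A B C) (g2' A B C) μ v < 0} := by
    rintro Γ ⟨γ, T, ⟨k1, k2, k3, k4, k5, k6⟩, rfl, hΓD, hh⟩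
    obtain ⟨v, ϑ, hG⟩ := exists_graph (continuous_field μ A B C) one_pos (contDiff_g1 A B C)
      (contDiff_g2 A B C) (fun θ => trig_anti _ _ _ _ θ) (fun θ => trig_anti _ _ _ _ θ)
      (fun r θ _ => field_polar μ A B C r θ) (γ := γ) (T := T) ⟨k1, k2, k3, k4, k5, k6⟩
    have hv : PSol (g1 A B C) (g2 A B C) μ v := by
      have := hG.sol
      simpa using this
    refine ⟨v, ⟨⟨hv, fun θ => ?_⟩, ?_⟩, (graph_range hG).symm⟩
    · have hpos := hv.pos θ
      apply hD (1 / v θ) θ (by positivity)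
      apply hΓD
      rw [graph_range hG]
      refine ⟨θ, ?_⟩
      simp only
      rw [Complex.exp_add, ← Complex.ofReal_exp, Nat.cast_one, div_one, Real.exp_neg,
        Real.exp_log hpos, one_div]
    · rw [← exp_eq hG hv]
      exact hh
  exact (Set.encard_le_encard hsub).trans (Set.encard_image_le _ _)

/-- the disc -/
theorem sdisc (A B C : ℂ) {R : ℝ} (hR : 0 < R) {σ : ℝ} (hσ : σ = 1 ∨ σ = -1) :
    ∃ g : ℝ → ℝ≥0∞, Measurable g ∧
      (∀ μ, ((sorbs σ (field μ A B C) (Metric.closedBall 0 R)).encard : ℝ≥0∞) ≤ g μ) ∧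
      ∫⁻ μ, g μ ≤ ENNReal.ofReal (2 / Real.pi * (‖A‖ + ‖C‖) * R) := by
  have hD : ∀ r θ : ℝ, 0 < r → (r:ℂ) * Complex.exp (θ * Complex.I) ∈ Metric.closedBall (0:ℂ) R →
      (fun _ : ℝ => (0:ℝ)) θ ≤ r ∧ r ≤ (fun _ : ℝ => R) θ := by
    intro r θ hr h
    rw [mem_closedBall_zero_iff, norm_mul, Complex.norm_exp_ofReal_mul_I, mul_one,
      Complex.norm_real, Real.norm_eq_abs, abs_of_pos hr] at h
    exact ⟨hr.le, h⟩
  obtain ⟨g, h2, h3, h4⟩ := sregion A B C continuous_const continuous_const hD hσ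
  refine ⟨g, h2, h3, h4.trans (ENNReal.ofReal_le_ofReal ?_)⟩
  have hc := cont_cf A C
  have hpi : 0 < 2 * Real.pi := by positivity
  have i1 : IntervalIntegrable (fun θ => |cf A C θ|) volume 0 (2 * Real.pi) :=
    hc.abs.intervalIntegrable _ _
  have i2 : IntervalIntegrable (fun θ => cf A C θ) volume 0 (2 * Real.pi) :=
    hc.intervalIntegrable _ _
  have e1 : ∫ θ in (0:ℝ)..(2 * Real.pi), max (-(σ * cf A C θ)) 0 * (R - 0) =
      R / 2 * ∫ θ in (0:ℝ)..(2 * Real.pi), |cf A C θ| := by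
    have e2 : ∫ θ in (0:ℝ)..(2 * Real.pi), max (-(σ * cf A C θ)) 0 * (R - 0) =
        ∫ θ in (0:ℝ)..(2 * Real.pi), (R / 2 * |cf A C θ| - σ * R / 2 * cf A C θ) := by
      apply integral_congr
      intro θ _
      simp only
      rcases hσ with h | h <;> rw [h] <;> rcases le_total 0 (cf A C θ) with h' | h'
      · rw [max_eq_right (by linarith), abs_of_nonneg h']; ring
      · rw [max_eq_left (by linarith), abs_of_nonpos h']; ring
      · rw [max_eq_left (by linarith), abs_of_nonneg h']; ring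
      · rw [max_eq_right (by linarith), abs_of_nonpos h']; ring
    rw [e2, intervalIntegral.integral_sub (i1.const_mul _) (i2.const_mul _),
      intervalIntegral.integral_const_mul, intervalIntegral.integral_const_mul, integral_cf,
      mul_zero, sub_zero]
  rw [e1]
  have h5 := integral_abs_cf A C
  calc 1 / (2 * Real.pi) * (R / 2 * ∫ θ in (0:ℝ)..(2 * Real.pi), |cf A C θ|)
      ≤ 1 / (2 * Real.pi) * (R / 2 * (8 * (‖A‖ + ‖C‖))) := by gcongr
    _ = 2 / Real.pi * (‖A‖ + ‖C‖) * R := by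
        have := Real.pi_pos.ne'
        field_simp
        norm_num

end Pool.Agent.TH275.QM
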