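import Pool.Agent.TH525.PU.Ind

/-! Points at which a function increases: their number in a level set is bounded on average by an
increasing majorant of the increments. -/

open Set MeasureTheory Topology Filter
open scoped ENNReal

namespace Pool.Agent.TH275.QM

open Pool.Agent.TH525.PU Pool.Agent.H709R2

theorem majorant_up (S U : ℝ → ℝ) (E F : Set ℝ) (hFE : F ⊆ E)
    (hSU : ∀ x ∈ E, ∀ y ∈ E, x ≤ y → S y - S x ≤ U y - U x)
    (hloc : ∀ x ∈ F, ∃ δ : ℝ, 0 < δ ∧ ∀ y ∈ E, |y - x| < δ → 0 ≤ (S y - S x) * (y - x)) :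
    ∃ g : ℝ → ℝ≥0∞, Measurable g ∧ (∀ y, ((F ∩ S ⁻¹' {y}).encard : ℝ≥0∞) ≤ g y) ∧
      ∫⁻ y, g y ≤ eVariationOn U E := by
  set Ek : ℕ → Set ℝ := fun k =>
    {x | x ∈ F ∧ ∀ y ∈ E, |y - x| * 2 ^ k < 1 → 0 ≤ (S y - S x) * (y - x)} with hEk
  have hvol : ∀ (k : ℕ) (j : ℤ), volume (S '' (Ek k ∩ dy k j)) ≤ eVariationOn U (Ek k ∩ dy k j) := by
    intro k j
    refine (Real.volume_le_diam _).trans ?_
    refine Metric.ediam_le ?_
    rintro _ ⟨x, hx, rfl⟩ _ ⟨y, hy, rfl⟩
    refine le_trans ?_ (eVariationOn.edist_le U hx hy)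
    have hdy : |y - x| * 2 ^ k < 1 := by
      have h1 : ⌊y * 2 ^ k⌋ = ⌊x * 2 ^ k⌋ := by
        have a1 := hx.2
        have a2 := hy.2
        simp only [dy, mem_setOf_eq] at a1 a2
        rw [a1, a2]
      have h2 := Int.abs_sub_lt_one_of_floor_eq_floor h1
      rwa [← sub_mul, abs_mul, abs_of_pos (by positivity : (0:ℝ) < 2 ^ k)] at h2
    have hdy' : |x - y| * 2 ^ k < 1 := by rwa [abs_sub_comm]
    have hxE := hFE hx.1.1
    have hyE := hFE hy.1.1
    rw [edist_dist, edist_dist, Real.dist_eq, Real.dist_eq]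
    apply ENNReal.ofReal_le_ofReal
    rcases lt_trichotomy x y with h | h | h
    · have h3 := hx.1.2 y hyE hdy
      have h4 : 0 ≤ S y - S x := nonneg_of_mul_nonneg_left h3 (by linarith)
      have h5 := hSU x hxE y hyE h.le
      rw [abs_sub_comm, abs_of_nonneg h4, abs_sub_comm]
      exact h5.trans (le_abs_self _)
    · rw [h]; simp
    · have h3 := hy.1.2 x hxE hdy'
      have h4 : 0 ≤ S x - S y := nonneg_of_mul_nonneg_left h3 (by linarith)
      have h5 := hSU y hyE x hxE h.le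
      rw [abs_of_nonneg h4]
      exact h5.trans (le_abs_self _)
  set G : ℕ → ℝ → ℝ≥0∞ := fun k β =>
    ∑' j : ℤ, (toMeasurable volume (S '' (Ek k ∩ dy k j))).indicator (fun _ => (1:ℝ≥0∞)) β with hG
  have hGm : ∀ k, Measurable (G k) := by
    intro k
    refine Measurable.tsum fun j => ?_
    exact measurable_const.indicator (measurableSet_toMeasurable _ _)
  have hGi : ∀ k, ∫⁻ β, G k β ≤ eVariationOn U E := by
    intro k
    have e1 : ∫⁻ β, G k β = ∑' j : ℤ, volume (S '' (Ek k ∩ dy k j)) := by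
      simp only [hG]
      rw [lintegral_tsum (fun j =>
        (measurable_const.indicator (measurableSet_toMeasurable _ _)).aemeasurable)]
      congr 1
      ext j
      rw [lintegral_indicator (measurableSet_toMeasurable _ _)]
      simp
    rw [e1]
    rw [ENNReal.tsum_eq_iSup_sum]
    refine iSup_le fun F' => ?_
    refine (Finset.sum_le_sum fun j _ => hvol k j).trans ?_
    refine (sum_variation_le U (Ek k) k F').trans ?_
    exact eVariationOn.mono _ (fun x hx => hFE hx.1.1)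
  refine ⟨fun β => liminf (fun k => G k β) atTop, Measurable.liminf hGm, ?_, ?_⟩
  · intro β
    refine encard_le_of_finset fun F' hF => ?_
    have hsep : ∃ k₀ : ℕ, ∀ k ≥ k₀, ∀ x ∈ F', ∀ y ∈ F', ⌊x * 2 ^ k⌋ = ⌊y * 2 ^ k⌋ → x = y := by
      have hfin : ∀ q ∈ F' ×ˢ F', ∃ k₀ : ℕ, ∀ k ≥ k₀,
          ⌊q.1 * 2 ^ k⌋ = ⌊q.2 * 2 ^ k⌋ → q.1 = q.2 := by
        rintro ⟨x, y⟩ -
        by_cases hxy : x = y
        · exact ⟨0, fun k _ _ => hxy⟩
        · have hd : 0 < |x - y| := abs_pos.2 (sub_ne_zero.2 hxy)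
          obtain ⟨k₀, hk₀⟩ := exists_nat_gt (1 / |x - y|)
          refine ⟨k₀, fun k hk hfl => ?_⟩
          exfalso
          have h1 : |x * 2 ^ k - y * 2 ^ k| < 1 := Int.abs_sub_lt_one_of_floor_eq_floor hfl
          rw [← sub_mul, abs_mul, abs_of_pos (by positivity : (0:ℝ) < 2 ^ k)] at h1
          have h2 : (k₀ : ℝ) ≤ 2 ^ k := by
            have h3 : k < 2 ^ k := Nat.lt_two_pow_self
            have h4 : (k₀ : ℝ) ≤ k := by exact_mod_cast hk
            have h5 : (k : ℝ) ≤ 2 ^ k := by exact_mod_cast h3.le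
            linarith
          have h6 : 1 < |x - y| * 2 ^ k := by
            rw [div_lt_iff₀ hd] at hk₀
            nlinarith
          linarith
      choose! kk hkk using hfin
      refine ⟨(F' ×ˢ F').sup kk, fun k hk x hx y hy h => ?_⟩
      have hm : (x, y) ∈ F' ×ˢ F' := Finset.mk_mem_product hx hy
      exact hkk (x, y) hm k ((Finset.le_sup hm).trans hk) h
    have hin : ∃ k₁ : ℕ, ∀ k ≥ k₁, ∀ x ∈ F', x ∈ Ek k := by
      have hfin : ∀ x ∈ F', ∃ k₁ : ℕ, ∀ k ≥ k₁, x ∈ Ek k := by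
        intro x hx
        have hxF : x ∈ F := (hF hx).1
        obtain ⟨δ, hδ, h⟩ := hloc x hxF
        obtain ⟨k₁, hk₁⟩ := exists_nat_gt (1 / δ)
        refine ⟨k₁, fun k hk => ⟨hxF, fun y hy hyx => h y hy ?_⟩⟩
        have h2 : (k₁ : ℝ) ≤ 2 ^ k := by
          have h3 : k < 2 ^ k := Nat.lt_two_pow_self
          have h4 : (k₁ : ℝ) ≤ k := by exact_mod_cast hk
          have h5 : (k : ℝ) ≤ 2 ^ k := by exact_mod_cast h3.le
          linarith
        rw [div_lt_iff₀ hδ] at hk₁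
        by_contra hcon
        push Not at hcon
        have h6 : 1 < |y - x| * 2 ^ k := by
          have a1 : (k₁:ℝ) * δ ≤ 2 ^ k * |y - x| :=
            mul_le_mul h2 hcon hδ.le (by positivity)
          linarith
        linarith
      choose! kk hkk using hfin
      exact ⟨F'.sup kk, fun k hk x hx => hkk x hx k ((Finset.le_sup hx).trans hk)⟩
    obtain ⟨k₀, hk₀⟩ := hsep
    obtain ⟨k₁, hk₁⟩ := hin
    refine le_liminf_of_le (by isBoundedDefault) ?_
    filter_upwards [eventually_ge_atTop k₀, eventually_ge_atTop k₁] with k hk hk'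
    have hinj : ∀ x ∈ F', ∀ y ∈ F', (fun x : ℝ => ⌊x * 2 ^ k⌋) x = (fun x : ℝ => ⌊x * 2 ^ k⌋) y →
        x = y := fun x hx y hy => hk₀ k hk x hx y hy
    have hcard : (F'.image fun x : ℝ => ⌊x * 2 ^ k⌋).card = F'.card :=
      Finset.card_image_of_injOn fun x hx y hy h => hinj x hx y hy h
    calc (F'.card : ℝ≥0∞) = ∑ j ∈ F'.image (fun x : ℝ => ⌊x * 2 ^ k⌋), (1:ℝ≥0∞) := by
          rw [Finset.sum_const, hcard]; simp
      _ ≤ ∑ j ∈ F'.image (fun x : ℝ => ⌊x * 2 ^ k⌋),
          (toMeasurable volume (S '' (Ek k ∩ dy k j))).indicator (fun _ => (1:ℝ≥0∞)) β := by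
          refine Finset.sum_le_sum fun j hj => ?_
          obtain ⟨x, hx, rfl⟩ := Finset.mem_image.1 hj
          have h1 := hF hx
          have h2 : β ∈ toMeasurable volume (S '' (Ek k ∩ dy k ⌊x * 2 ^ k⌋)) := by
            apply subset_toMeasurable
            exact ⟨x, ⟨hk₁ k hk' x hx, rfl⟩, h1.2⟩
          rw [indicator_of_mem h2]
      _ ≤ G k β := ENNReal.sum_le_tsum _
  · refine (lintegral_liminf_le hGm).trans ?_
    refine liminf_le_of_le (by isBoundedDefault) fun b hb => ?_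
    obtain ⟨k, hk⟩ := hb.exists
    exact hk.trans (hGi k)

end Pool.Agent.TH275.QM
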