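import Pool.Agent.TH275.QM.Disc
import Pool.Agent.TH275.QM.Up

/-! # Stable and unstable closed orbits separately -/

open Set MeasureTheory Topology Filter intervalIntegral
open scoped ENNReal

namespace Pool.Agent.TH275.QM

open Pool.Agent.H811R2.Quad Pool.Agent.TH525.PU Pool.Agent.TH234.QH

variable {G1 G2 G2' : ℝ → ℝ}

/-- the pair identity for different parameters -/
lemma pair (hG1 : Continuous G1) (hG2 : ∀ θ, HasDerivAt G2 (G2' θ) θ)
    (hG2' : Continuous G2') (hper2 : ∀ θ, G2 (θ + 2 * Real.pi) = G2 θ) {μ1 μ2 : ℝ}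
    {v1 v2 : ℝ → ℝ} (h1 : PSol G1 G2 μ1 v1) (h2 : PSol G1 G2 μ2 v2) (hne : ∀ θ, v1 θ ≠ v2 θ) :
    4 * Real.pi * μ1 + Kf (Bf G1 G2 G2' μ1) G2 v1 v2 = 2 * (μ2 - μ1) *
      ∫ θ in (0:ℝ)..(2 * Real.pi), v2 θ ^ 2 / ((v1 θ + G2 θ) ^ 2 - (v2 θ + G2 θ) ^ 2) := by
  have hG2c : Continuous G2 := continuous_iff_continuousAt.2 fun θ => (hG2 θ).continuousAt
  have hD : ∀ θ, (v1 θ + G2 θ) ^ 2 - (v2 θ + G2 θ) ^ 2 ≠ 0 := by
    intro θ h
    have a1 := h1.pos' θ
    have a2 := h2.pos' θ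
    have h3 : (v1 θ - v2 θ) * ((v1 θ + G2 θ) + (v2 θ + G2 θ)) = 0 := by linear_combination h
    rcases mul_eq_zero.1 h3 with h4 | h4
    · exact hne θ (by linarith)
    · linarith
  have hs : ∀ θ, v1 θ + G2 θ + (v2 θ + G2 θ) ≠ 0 := by
    intro θ
    have := h1.pos' θ
    have := h2.pos' θ
    positivity
  have hBc : Continuous (Bf G1 G2 G2' μ1) := by unfold Bf; fun_prop
  have c1 : Continuous fun θ => Bf G1 G2 G2' μ1 θ * (2 / ((v1 θ + G2 θ) + (v2 θ + G2 θ))) :=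
    hBc.mul (continuous_const.div ((h1.cont.add hG2c).add (h2.cont.add hG2c)) hs)
  have c2 : Continuous fun θ => v2 θ ^ 2 / ((v1 θ + G2 θ) ^ 2 - (v2 θ + G2 θ) ^ 2) :=
    (h2.cont.pow 2).div (((h1.cont.add hG2c).pow 2).sub ((h2.cont.add hG2c).pow 2)) hD
  have hd : ∀ θ, HasDerivAt (fun θ => Real.log ((v1 θ + G2 θ) ^ 2 - (v2 θ + G2 θ) ^ 2))
      ((-(2 * μ1) - Bf G1 G2 G2' μ1 θ * (2 / ((v1 θ + G2 θ) + (v2 θ + G2 θ)))) +
        2 * (μ2 - μ1) * (v2 θ ^ 2 / ((v1 θ + G2 θ) ^ 2 - (v2 θ + G2 θ) ^ 2))) θ := by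
    intro θ
    have e1 := (h1.deriv θ).add (hG2 θ)
    have e2 := (h2.deriv θ).add (hG2 θ)
    have e3 := ((e1.pow 2).sub (e2.pow 2)).log (hD θ)
    refine e3.congr_deriv ?_
    have a1 := (h1.pos' θ).ne'
    have a2 := (h2.pos' θ).ne'
    have a3 := hs θ
    have a4 := hD θ
    simp only [Pi.add_apply, Nat.add_one_sub_one, pow_one, Nat.cast_ofNat, Pi.pow_apply,
      Pi.sub_apply]
    rw [div_eq_iff a4]
    have e5 : (-(2 * μ1) - Bf G1 G2 G2' μ1 θ * (2 / (v1 θ + G2 θ + (v2 θ + G2 θ))) +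
        2 * (μ2 - μ1) * (v2 θ ^ 2 / ((v1 θ + G2 θ) ^ 2 - (v2 θ + G2 θ) ^ 2))) *
        ((v1 θ + G2 θ) ^ 2 - (v2 θ + G2 θ) ^ 2) =
        -(2 * μ1) * ((v1 θ + G2 θ) ^ 2 - (v2 θ + G2 θ) ^ 2) -
        2 * Bf G1 G2 G2' μ1 θ * (v1 θ - v2 θ) + 2 * (μ2 - μ1) * v2 θ ^ 2 := by
      have e6 : (v2 θ ^ 2 / ((v1 θ + G2 θ) ^ 2 - (v2 θ + G2 θ) ^ 2)) *
          ((v1 θ + G2 θ) ^ 2 - (v2 θ + G2 θ) ^ 2) = v2 θ ^ 2 := div_mul_cancel₀ _ a4
      have e7 : (2 / (v1 θ + G2 θ + (v2 θ + G2 θ))) * ((v1 θ + G2 θ) + (v2 θ + G2 θ)) = 2 :=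
        div_mul_cancel₀ _ a3
      linear_combination (2 * (μ2 - μ1)) * e6 - (Bf G1 G2 G2' μ1 θ * (v1 θ - v2 θ)) * e7
    rw [e5]
    unfold Bf
    field_simp
    ring
  have hint := integral_eq_sub_of_hasDerivAt (a := 0) (b := 2 * Real.pi)
    (fun θ _ => hd θ) (by
      apply Continuous.intervalIntegrable
      exact (continuous_const.sub c1).add (continuous_const.mul c2))
  have p1 := h1.per 0
  have p2 := h2.per 0
  have p3 := hper2 0
  rw [zero_add] at p1 p2 p3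
  rw [p1, p2, p3, sub_self] at hint
  have i1 : IntervalIntegrable (fun θ => -(2 * μ1) -
      Bf G1 G2 G2' μ1 θ * (2 / ((v1 θ + G2 θ) + (v2 θ + G2 θ)))) volume 0 (2 * Real.pi) :=
    (continuous_const.sub c1).intervalIntegrable _ _
  have i2 : IntervalIntegrable (fun θ => 2 * (μ2 - μ1) *
      (v2 θ ^ 2 / ((v1 θ + G2 θ) ^ 2 - (v2 θ + G2 θ) ^ 2))) volume 0 (2 * Real.pi) :=
    (continuous_const.mul c2).intervalIntegrable _ _
  rw [intervalIntegral.integral_add i1 i2,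
    intervalIntegral.integral_sub (continuous_const.intervalIntegrable _ _)
      (c1.intervalIntegrable _ _), intervalIntegral.integral_const,
    intervalIntegral.integral_const_mul] at hint
  simp only [sub_zero, smul_eq_mul] at hint
  unfold Kf
  linarith

/-- the size of a graph -/
noncomputable def xx (v : ℝ → ℝ) : ℝ := ∫ θ in (0:ℝ)..(2 * Real.pi), 1 / v θ

lemma xx_sub {v w : ℝ → ℝ} (hv : Continuous v) (hw : Continuous w) (pv : ∀ θ, 0 < v θ)
    (pw : ∀ θ, 0 < w θ) : xx w - xx v = ∫ θ in (0:ℝ)..(2 * Real.pi), (1 / w θ - 1 / v θ) := by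
  have a1 : Continuous fun θ => 1 / v θ := continuous_const.div hv fun θ => (pv θ).ne'
  have a2 : Continuous fun θ => 1 / w θ := continuous_const.div hw fun θ => (pw θ).ne'
  unfold xx
  rw [intervalIntegral.integral_sub (a2.intervalIntegrable _ _) (a1.intervalIntegrable _ _)]

lemma xx_lt {v w : ℝ → ℝ} (hv : Continuous v) (hw : Continuous w) (pv : ∀ θ, 0 < v θ)
    (pw : ∀ θ, 0 < w θ) (h : ∀ θ, w θ < v θ) : xx v < xx w := by
  have a1 : Continuous fun θ => 1 / v θ := continuous_const.div hv fun θ => (pv θ).ne'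
  have a2 : Continuous fun θ => 1 / w θ := continuous_const.div hw fun θ => (pw θ).ne'
  unfold xx
  apply integral_lt_integral_of_continuousOn_of_le_of_exists_lt (by positivity)
    a1.continuousOn a2.continuousOn
  · intro θ _
    exact one_div_le_one_div_of_le (pw θ) (h θ).le
  · exact ⟨0, ⟨le_rfl, by positivity⟩, one_div_lt_one_div_of_lt (pw 0) (h 0)⟩

/-- near a closed orbit with exponent `≠ 0` the parameter is a monotone function of the size -/
lemma local_sign (hG1 : Continuous G1) (hG2 : ∀ θ, HasDerivAt G2 (G2' θ) θ)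
    (hG2' : Continuous G2') (hper2 : ∀ θ, G2 (θ + 2 * Real.pi) = G2 θ) {μ1 : ℝ}
    {v1 : ℝ → ℝ} (h1 : PSol G1 G2 μ1 v1) (hH : Hf G1 G2 G2' μ1 v1 ≠ 0) :
    ∃ δ : ℝ, 0 < δ ∧ ∀ μ2 v2, PSol G1 G2 μ2 v2 → |xx v2 - xx v1| < δ →
      0 ≤ -Hf G1 G2 G2' μ1 v1 * ((μ2 - μ1) * (xx v2 - xx v1)) := by
  have hG2c : Continuous G2 := continuous_iff_continuousAt.2 fun θ => (hG2 θ).continuousAt
  have hBc : Continuous (Bf G1 G2 G2' μ1) := by unfold Bf; fun_prop
  set H := Hf G1 G2 G2' μ1 v1 with hHdef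
  have hu1 : ∀ θ, v1 θ + G2 θ ≠ 0 := fun θ => (h1.pos' θ).ne'
  have hcc : Continuous fun θ => |Bf G1 G2 G2' μ1 θ| * v1 θ * (1 + |G2 θ| / (v1 θ + G2 θ)) /
      (v1 θ + G2 θ) := by
    refine ((hBc.abs.mul h1.cont).mul (continuous_const.add (hG2c.abs.div
      (h1.cont.add hG2c) hu1))).div (h1.cont.add hG2c) hu1
  obtain ⟨C, hC⟩ := isCompact_Icc.exists_bound_of_continuousOn
    (s := Icc (0:ℝ) (2 * Real.pi)) hcc.continuousOn
  have hC0 : 0 ≤ C := (norm_nonneg _).trans (hC 0 ⟨le_rfl, by positivity⟩)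
  refine ⟨|H| / (C + 1), by positivity, fun μ2 v2 h2 hx => ?_⟩
  by_cases he : v1 = v2
  · rw [he, sub_self, mul_zero, mul_zero]
  have hKJ : ∀ s : ℝ, (∀ θ, |1 / v2 θ - 1 / v1 θ| = s * (1 / v2 θ - 1 / v1 θ)) →
      |Kf (Bf G1 G2 G2' μ1) G2 v1 v2 - Jf (Bf G1 G2 G2' μ1) G2 v1| ≤
        C * (s * (xx v2 - xx v1)) := by
    intro s hs
    have b1 : Continuous fun θ => Bf G1 G2 G2' μ1 θ * (2 / ((v1 θ + G2 θ) + (v2 θ + G2 θ))) := by
      refine hBc.mul (continuous_const.div ((h1.cont.add hG2c).add (h2.cont.add hG2c)) ?_)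
      intro θ
      have := h1.pos' θ
      have := h2.pos' θ
      positivity
    have b2 : Continuous fun θ => Bf G1 G2 G2' μ1 θ / (v1 θ + G2 θ) :=
      hBc.div (h1.cont.add hG2c) hu1
    have b3 : Continuous fun θ => 1 / v2 θ - 1 / v1 θ :=
      (continuous_const.div h2.cont fun θ => (h2.pos θ).ne').sub
        (continuous_const.div h1.cont fun θ => (h1.pos θ).ne')
    unfold Kf Jf
    rw [← intervalIntegral.integral_sub (b1.intervalIntegrable _ _) (b2.intervalIntegrable _ _)]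
    refine (abs_integral_le_integral_abs (by positivity)).trans ?_
    have e1 : C * (s * (xx v2 - xx v1)) =
        ∫ θ in (0:ℝ)..(2 * Real.pi), C * (s * (1 / v2 θ - 1 / v1 θ)) := by
      rw [intervalIntegral.integral_const_mul, intervalIntegral.integral_const_mul,
        xx_sub h1.cont h2.cont h1.pos h2.pos]
    rw [e1]
    apply integral_mono_on (by positivity) ((b1.sub b2).abs.intervalIntegrable _ _)
      ((continuous_const.mul (continuous_const.mul b3)).intervalIntegrable _ _)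
    intro θ hθ
    have q1 := h1.pos θ
    have q2 := h1.pos' θ
    have q3 := h2.pos θ
    have q4 := h2.pos' θ
    have q5 : (0:ℝ) < v1 θ + G2 θ + (v2 θ + G2 θ) := by positivity
    have hb := hC θ hθ
    rw [Real.norm_eq_abs, abs_of_nonneg (by positivity)] at hb
    simp only [Pi.sub_apply, Pi.mul_apply]
    rw [← hs θ]
    have e2 : Bf G1 G2 G2' μ1 θ * (2 / ((v1 θ + G2 θ) + (v2 θ + G2 θ))) -
        Bf G1 G2 G2' μ1 θ / (v1 θ + G2 θ) =
        Bf G1 G2 G2' μ1 θ * v1 θ * (v2 θ / ((v1 θ + G2 θ) + (v2 θ + G2 θ))) / (v1 θ + G2 θ) *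
          (1 / v2 θ - 1 / v1 θ) := by
      field_simp
      ring
    rw [e2, abs_mul]
    apply mul_le_mul_of_nonneg_right _ (abs_nonneg _)
    refine le_trans ?_ hb
    rw [abs_div, abs_mul, abs_mul, abs_of_pos q1, abs_of_pos q2,
      abs_of_pos (by positivity : 0 < v2 θ / ((v1 θ + G2 θ) + (v2 θ + G2 θ)))]
    apply div_le_div_of_nonneg_right _ q2.le
    apply mul_le_mul_of_nonneg_left _ (by positivity)
    rw [div_le_iff₀ q5]
    have e3 : |G2 θ| / (v1 θ + G2 θ) * (v1 θ + G2 θ) = |G2 θ| := div_mul_cancel₀ _ q2.ne'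
    have e4 : 0 ≤ |G2 θ| / (v1 θ + G2 θ) * (v2 θ + G2 θ) := by positivity
    have e5 := neg_abs_le (G2 θ)
    nlinarith
  have hpair := pair hG1 hG2 hG2' hper2 h1 h2
  have hHJ : 4 * Real.pi * μ1 + Jf (Bf G1 G2 G2' μ1) G2 v1 = -H := by
    rw [hHdef]; unfold Hf; ring
  have hδ : C * |xx v2 - xx v1| < |H| := by
    rw [lt_div_iff₀ (by positivity)] at hx
    have := abs_nonneg (xx v2 - xx v1)
    nlinarith
  rcases h1.order hG1 hG2c h2 he with hlt | hlt
  · -- the second orbit is inside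
    have hxl := xx_lt h2.cont h1.cont h2.pos h1.pos hlt
    have hK := hKJ (-1) (fun θ => by
      rw [abs_of_nonpos (by linarith [one_div_le_one_div_of_le (h1.pos θ) (hlt θ).le])]; ring)
    have hp := hpair (fun θ => (hlt θ).ne)
    set I := ∫ θ in (0:ℝ)..(2 * Real.pi), v2 θ ^ 2 / ((v1 θ + G2 θ) ^ 2 - (v2 θ + G2 θ) ^ 2)
    have hI : I ≤ 0 := by
      have : 0 ≤ -I := by
        rw [← intervalIntegral.integral_neg]
        apply intervalIntegral.integral_nonneg (by positivity)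
        intro θ _
        have q2 := h1.pos' θ
        have q4 := h2.pos' θ
        have q5 := hlt θ
        rw [neg_nonneg]
        apply div_nonpos_of_nonneg_of_nonpos (by positivity)
        nlinarith
      linarith
    rw [abs_of_neg (by linarith : xx v2 - xx v1 < 0)] at hδ
    have h5 : |2 * (μ2 - μ1) * I - (-H)| < |H| := by
      rw [← hp, ← hHJ]
      refine lt_of_le_of_lt (le_trans (le_of_eq ?_) hK) (by linarith)
      congr 1; ring
    have h6 : 0 < -H * (2 * (μ2 - μ1) * I) := by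
      rcases lt_or_gt_of_ne hH with h | h
      · rw [abs_of_neg h, abs_lt] at h5
        nlinarith [h5.1]
      · rw [abs_of_pos h, abs_lt] at h5
        nlinarith [h5.2]
    have h7 : 0 ≤ (-H * (μ2 - μ1)) * (-1) := by
      by_contra hcon
      push Not at hcon
      nlinarith
    have : -H * ((μ2 - μ1) * (xx v2 - xx v1)) =
        ((-H * (μ2 - μ1)) * (-1)) * (xx v1 - xx v2) := by ring
    rw [this]
    exact mul_nonneg h7 (by linarith)
  · have hxl := xx_lt h1.cont h2.cont h1.pos h2.pos hlt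
    have hK := hKJ 1 (fun θ => by
      rw [abs_of_nonneg (by linarith [one_div_le_one_div_of_le (h2.pos θ) (hlt θ).le])]; ring)
    have hp := hpair (fun θ => (hlt θ).ne')
    set I := ∫ θ in (0:ℝ)..(2 * Real.pi), v2 θ ^ 2 / ((v1 θ + G2 θ) ^ 2 - (v2 θ + G2 θ) ^ 2)
    have hI : 0 ≤ I := by
      apply intervalIntegral.integral_nonneg (by positivity)
      intro θ _
      have q2 := h1.pos' θ
      have q4 := h2.pos' θ
      have q5 := hlt θ
      apply div_nonneg (by positivity)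
      nlinarith
    rw [abs_of_pos (by linarith : 0 < xx v2 - xx v1)] at hδ
    have h5 : |2 * (μ2 - μ1) * I - (-H)| < |H| := by
      rw [← hp, ← hHJ]
      refine lt_of_le_of_lt (le_trans (le_of_eq ?_) hK) (by linarith)
      congr 1; ring
    have h6 : 0 < -H * (2 * (μ2 - μ1) * I) := by
      rcases lt_or_gt_of_ne hH with h | h
      · rw [abs_of_neg h, abs_lt] at h5
        nlinarith [h5.1]
      · rw [abs_of_pos h, abs_lt] at h5
        nlinarith [h5.2]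
    have h7 : 0 ≤ -H * (μ2 - μ1) := by
      by_contra hcon
      push Not at hcon
      nlinarith
    have : -H * ((μ2 - μ1) * (xx v2 - xx v1)) = (-H * (μ2 - μ1)) * (xx v2 - xx v1) := by ring
    rw [this]
    exact mul_nonneg h7 (by linarith)

lemma evar_le {U : ℝ → ℝ} {E : Set ℝ} {M : ℝ} (hm : MonotoneOn U E)
    (hM : ∀ x ∈ E, ∀ y ∈ E, U y - U x ≤ M) : eVariationOn U E ≤ ENNReal.ofReal M := by
  refine iSup_le ?_
  rintro ⟨n, u, hu, us⟩
  simp only
  have h1 : ∀ i, edist (U (u (i + 1))) (U (u i)) = ENNReal.ofReal (U (u (i + 1)) - U (u i)) := by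
    intro i
    have h2 := hm (us i) (us (i + 1)) (hu (Nat.le_succ i))
    rw [edist_dist, Real.dist_eq, abs_of_nonneg (by linarith)]
  simp only [h1]
  rw [← ENNReal.ofReal_sum_of_nonneg, Finset.sum_range_sub (fun i => U (u i)) n]
  · exact ENNReal.ofReal_le_ofReal (hM _ (us 0) _ (us n))
  · intro i _
    have h2 := hm (us i) (us (i + 1)) (hu (Nat.le_succ i))
    linarith

/-- the mean number of the closed graphs with exponent of the sign `-σ` -/
theorem meanSig (hG1 : Continuous G1) (hG2 : ∀ θ, HasDerivAt G2 (G2' θ) θ)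
    (hG2' : Continuous G2') (hper2 : ∀ θ, G2 (θ + 2 * Real.pi) = G2 θ)
    {ρ0 ρ1 : ℝ → ℝ} (hρ0 : Continuous ρ0) (hρ1 : Continuous ρ1) {σ : ℝ} (hσ : σ = 1 ∨ σ = -1) :
    ∃ g : ℝ → ℝ≥0∞, Measurable g ∧
      (∀ μ, (({v | v ∈ Gr G1 G2 ρ0 ρ1 μ ∧ σ * Hf G1 G2 G2' μ v < 0}).encard : ℝ≥0∞) ≤ g μ) ∧
      ∫⁻ μ, g μ ≤ ENNReal.ofReal ((1 / (2 * Real.pi)) *
        ∫ θ in (0:ℝ)..(2 * Real.pi), max (-(σ * (G1 θ + G2' θ))) 0 * (ρ1 θ - ρ0 θ)) := by
  classical
  have hpi : 0 < 2 * Real.pi := by positivity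
  have hG2c : Continuous G2 := continuous_iff_continuousAt.2 fun θ => (hG2 θ).continuousAt
  set E : Set ℝ := {x | ∃ μ v, v ∈ Gr G1 G2 ρ0 ρ1 μ ∧ xx v = x} with hE
  have hex : ∀ x, ∃ p : ℝ × (ℝ → ℝ), x ∈ E → p.2 ∈ Gr G1 G2 ρ0 ρ1 p.1 ∧ xx p.2 = x := by
    intro x
    by_cases hx : x ∈ E
    · obtain ⟨μ, v, h1, h2⟩ := hx
      exact ⟨(μ, v), fun _ => ⟨h1, h2⟩⟩
    · exact ⟨(0, fun _ => 0), fun h => absurd h hx⟩
  choose P hP using hex
  have hlt : ∀ {μ1 μ2 : ℝ} {v1 v2 : ℝ → ℝ}, PSol G1 G2 μ1 v1 → PSol G1 G2 μ2 v2 →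
      xx v1 ≤ xx v2 → ∀ θ, v2 θ ≤ v1 θ := by
    intro μ1 μ2 v1 v2 h1 h2 h0 θ
    by_cases he : v1 = v2
    · rw [he]
    · rcases h1.order hG1 hG2c h2 he with h | h
      · exact absurd (xx_lt h2.cont h1.cont h2.pos h1.pos h) (not_lt.2 h0)
      · exact (h θ).le
  have heq : ∀ {μ1 μ2 : ℝ} {v1 v2 : ℝ → ℝ}, PSol G1 G2 μ1 v1 → PSol G1 G2 μ2 v2 →
      xx v1 = xx v2 → v1 = v2 ∧ μ1 = μ2 := by
    intro μ1 μ2 v1 v2 h1 h2 h0
    have hv : v1 = v2 := funext fun θ =>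
      le_antisymm (hlt h2 h1 h0.ge θ) (hlt h1 h2 h0.le θ)
    refine ⟨hv, ?_⟩
    subst hv
    have e1 := flux hG1 hG2 hG2' hper2 h1
    have e2 := flux hG1 hG2 hG2' hper2 h2
    exact mul_left_cancel₀ hpi.ne' (e1.trans e2.symm)
  have hcc : Continuous fun θ => max (-(σ * (G1 θ + G2' θ))) 0 := by fun_prop
  set U : ℝ → ℝ := fun x => (1 / (2 * Real.pi)) *
    ∫ θ in (0:ℝ)..(2 * Real.pi), max (-(σ * (G1 θ + G2' θ))) 0 * (1 / (P x).2 θ) with hU
  have hUsub : ∀ x ∈ E, ∀ y ∈ E, U y - U x = (1 / (2 * Real.pi)) *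
      ∫ θ in (0:ℝ)..(2 * Real.pi), max (-(σ * (G1 θ + G2' θ))) 0 *
        (1 / (P y).2 θ - 1 / (P x).2 θ) := by
    intro x hx y hy
    have h1 := (hP x hx).1.1
    have h2 := (hP y hy).1.1
    have c1 : Continuous fun θ => max (-(σ * (G1 θ + G2' θ))) 0 * (1 / (P x).2 θ) :=
      hcc.mul (continuous_const.div h1.cont fun θ => (h1.pos θ).ne')
    have c2 : Continuous fun θ => max (-(σ * (G1 θ + G2' θ))) 0 * (1 / (P y).2 θ) :=
      hcc.mul (continuous_const.div h2.cont fun θ => (h2.pos θ).ne')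
    simp only [hU]
    rw [← mul_sub, ← intervalIntegral.integral_sub (c2.intervalIntegrable _ _)
      (c1.intervalIntegrable _ _)]
    congr 1
    apply integral_congr
    intro θ _
    simp only
    ring
  have hcd : ∀ x ∈ E, ∀ y ∈ E, Continuous fun θ => 1 / (P y).2 θ - 1 / (P x).2 θ := by
    intro x hx y hy
    have h1 := (hP x hx).1.1
    have h2 := (hP y hy).1.1
    exact (continuous_const.div h2.cont fun θ => (h2.pos θ).ne').sub
      (continuous_const.div h1.cont fun θ => (h1.pos θ).ne')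
  have hdiff : ∀ x ∈ E, ∀ y ∈ E, x ≤ y → ∀ θ, 0 ≤ 1 / (P y).2 θ - 1 / (P x).2 θ := by
    intro x hx y hy hxy θ
    have h1 := hP x hx
    have h2 := hP y hy
    have h3 := hlt h1.1.1 h2.1.1 (by rw [h1.2, h2.2]; exact hxy) θ
    have := one_div_le_one_div_of_le (h2.1.1.pos θ) h3
    linarith
  have hUmono : MonotoneOn U E := by
    intro x hx y hy hxy
    have h1 := hUsub x hx y hy
    have h2 : 0 ≤ ∫ θ in (0:ℝ)..(2 * Real.pi), max (-(σ * (G1 θ + G2' θ))) 0 *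
        (1 / (P y).2 θ - 1 / (P x).2 θ) :=
      intervalIntegral.integral_nonneg (by positivity) fun θ _ =>
        mul_nonneg (le_max_right _ _) (hdiff x hx y hy hxy θ)
    have h3 : 0 ≤ U y - U x := by rw [h1]; positivity
    linarith
  have hUM : ∀ x ∈ E, ∀ y ∈ E, U y - U x ≤ (1 / (2 * Real.pi)) *
      ∫ θ in (0:ℝ)..(2 * Real.pi), max (-(σ * (G1 θ + G2' θ))) 0 * (ρ1 θ - ρ0 θ) := by
    intro x hx y hy
    rw [hUsub x hx y hy]
    apply mul_le_mul_of_nonneg_left _ (by positivity)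
    apply integral_mono_on (by positivity)
      ((hcc.mul (hcd x hx y hy)).intervalIntegrable _ _)
      ((hcc.mul (hρ1.sub hρ0)).intervalIntegrable _ _)
    intro θ _
    simp only [Pi.sub_apply, Pi.mul_apply]
    exact mul_le_mul_of_nonneg_left
      (sub_le_sub ((hP y hy).1.2 θ).2 ((hP x hx).1.2 θ).1) (le_max_right _ _)
  have hσ2 : σ * σ = 1 := by rcases hσ with h | h <;> rw [h] <;> norm_num
  set S : ℝ → ℝ := fun x => σ * (P x).1 with hS
  have hSU : ∀ x ∈ E, ∀ y ∈ E, x ≤ y → S y - S x ≤ U y - U x := by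
    intro x hx y hy hxy
    have h1 := (hP x hx).1.1
    have h2 := (hP y hy).1.1
    have e1 := flux hG1 hG2 hG2' hper2 h1
    have e2 := flux hG1 hG2 hG2' hper2 h2
    have c1 : Continuous fun θ => (G1 θ + G2' θ) / (P x).2 θ :=
      (hG1.add hG2').div h1.cont fun θ => (h1.pos θ).ne'
    have c2 : Continuous fun θ => (G1 θ + G2' θ) / (P y).2 θ :=
      (hG1.add hG2').div h2.cont fun θ => (h2.pos θ).ne'
    rw [hUsub x hx y hy]
    have e3 : S y - S x = (1 / (2 * Real.pi)) * ∫ θ in (0:ℝ)..(2 * Real.pi),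
        (-(σ * (G1 θ + G2' θ))) * (1 / (P y).2 θ - 1 / (P x).2 θ) := by
      have e4 : ∫ θ in (0:ℝ)..(2 * Real.pi),
          (-(σ * (G1 θ + G2' θ))) * (1 / (P y).2 θ - 1 / (P x).2 θ) =
          σ * ((∫ θ in (0:ℝ)..(2 * Real.pi), (G1 θ + G2' θ) / (P x).2 θ) -
            ∫ θ in (0:ℝ)..(2 * Real.pi), (G1 θ + G2' θ) / (P y).2 θ) := by
        rw [← intervalIntegral.integral_sub (c1.intervalIntegrable _ _)
          (c2.intervalIntegrable _ _), ← intervalIntegral.integral_const_mul]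
        apply integral_congr
        intro θ _
        simp only
        ring
      rw [e4]
      simp only [hS]
      rw [one_div, ← div_eq_inv_mul, eq_div_iff hpi.ne']
      linear_combination σ * e2 - σ * e1
    rw [e3]
    apply mul_le_mul_of_nonneg_left _ (by positivity)
    have hc' : Continuous fun θ => -(σ * (G1 θ + G2' θ)) := by fun_prop
    apply integral_mono_on (by positivity) ((hc'.mul (hcd x hx y hy)).intervalIntegrable _ _)
      ((hcc.mul (hcd x hx y hy)).intervalIntegrable _ _)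
    intro θ _
    simp only [Pi.mul_apply]
    exact mul_le_mul_of_nonneg_right (le_max_left _ _) (hdiff x hx y hy hxy θ)
  set F : Set ℝ := {x | x ∈ E ∧ σ * Hf G1 G2 G2' (P x).1 (P x).2 < 0} with hF
  obtain ⟨g, hgm, hg, hgi⟩ := majorant_up S U E F (fun x hx => hx.1) hSU (by
    intro x hx
    obtain ⟨h1, h2⟩ := hP x hx.1
    have hne : Hf G1 G2 G2' (P x).1 (P x).2 ≠ 0 := by
      intro h
      have := hx.2
      rw [h, mul_zero] at this
      exact lt_irrefl _ this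
    obtain ⟨δ, hδ, h⟩ := local_sign hG1 hG2 hG2' hper2 h1.1 hne
    refine ⟨δ, hδ, fun y hy hyx => ?_⟩
    obtain ⟨h3, h4⟩ := hP y hy
    have h5 := h (P y).1 (P y).2 h3.1 (by rw [h4, h2]; exact hyx)
    rw [h4, h2] at h5
    have h6 : 0 < -(σ * Hf G1 G2 G2' (P x).1 (P x).2) := by linarith [hx.2]
    have h7 : -Hf G1 G2 G2' (P x).1 (P x).2 * (((P y).1 - (P x).1) * (y - x)) =
        -(σ * Hf G1 G2 G2' (P x).1 (P x).2) * ((S y - S x) * (y - x)) := by
      simp only [hS]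
      linear_combination (Hf G1 G2 G2' (P x).1 (P x).2 * (((P y).1 - (P x).1) * (y - x))) * hσ2
    rw [h7] at h5
    exact nonneg_of_mul_nonneg_right h5 h6)
  refine ⟨fun μ => g (σ * μ), hgm.comp (measurable_const_mul σ), fun μ => ?_, ?_⟩
  · refine le_trans ?_ (hg (σ * μ))
    refine ENat.toENNReal_le.2 ?_
    refine Set.encard_le_encard_of_injOn (f := xx) ?_ ?_
    · rintro v ⟨hv, hvH⟩
      have hx : xx v ∈ E := ⟨μ, v, hv, rfl⟩
      obtain ⟨h1, h2⟩ := hP (xx v) hx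
      obtain ⟨h3, h4⟩ := heq h1.1 hv.1 h2
      refine ⟨⟨hx, ?_⟩, ?_⟩
      · rw [h3, h4]; exact hvH
      · simp only [hS, mem_preimage, mem_singleton_iff]
        rw [h4]
    · rintro v ⟨hv, -⟩ w ⟨hw, -⟩ he
      exact (heq hv.1 hw.1 he).1
  · have h1 : ∫⁻ μ, g (σ * μ) = ∫⁻ μ, g μ := by
      rcases hσ with h | h
      · rw [h]; simp
      · rw [h]
        simp only [neg_mul, one_mul]
        exact lintegral_neg_eq_self g
    rw [h1]
    exact hgi.trans (evar_le hUmono hUM)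

end Pool.Agent.TH275.QM
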